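import Pool.Agent.W_bec814_h13.AffDef

set_option autoImplicit false

namespace Pool.Agent.WBec814

/-- the translation by `t` -/
def AffDC_tr {K : Type} [Field K] (A : Subgroup (RingAut K)) (t : K) : affGroup A :=
  ⟨Equiv.addRight t, 1, one_ne_zero, 1, A.one_mem, t, fun y => by simp⟩

theorem AffDC_tr_apply {K : Type} [Field K] (A : Subgroup (RingAut K)) (t y : K) :
    (AffDC_tr A t).1 y = y + t := rfl

/-- the map `y ↦ u * a y` -/
def AffDC_ml {K : Type} [Field K] (A : Subgroup (RingAut K)) (u : K) (hu : u ≠ 0) (a : RingAut K)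
    (ha : a ∈ A) : affGroup A :=
  ⟨a.toEquiv.trans (Equiv.mulLeft₀ u hu), u, hu, a, ha, 0, fun y => by simp⟩

theorem AffDC_ml_apply {K : Type} [Field K] (A : Subgroup (RingAut K)) (u : K) (hu : u ≠ 0)
    (a : RingAut K) (ha : a ∈ A) (y : K) : (AffDC_ml A u hu a ha).1 y = u * a y := rfl

theorem AffDC_mem {K : Type} [Field K] (A : Subgroup (RingAut K)) (e : affGroup A) :
    e ∈ affStab A ↔ e.1 0 = 0 := Iff.rfl

theorem affStab_index {K : Type} [Field K] [Infinite K] (A : Subgroup (RingAut K)) :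
    (affStab A).index = 0 := by
  have hinj : Function.Injective
      (fun t : K => (QuotientGroup.mk (AffDC_tr A t) : affGroup A ⧸ affStab A)) := by
    intro t t' h
    have h1 := QuotientGroup.eq.1 h
    rw [AffDC_mem] at h1
    have h2 : ((AffDC_tr A t)⁻¹ * AffDC_tr A t').1 0 = (AffDC_tr A t).1⁻¹ ((AffDC_tr A t').1 0) :=
      rfl
    rw [h2, Equiv.Perm.inv_eq_iff_eq, AffDC_tr_apply, AffDC_tr_apply, zero_add, zero_add] at h1
    exact h1.symm
  have : Infinite (affGroup A ⧸ affStab A) := Infinite.of_injective _ hinj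
  exact Nat.card_eq_zero_of_infinite

/-- exactly two double cosets, `g` the translation by `1` -/
theorem affStab_double {K : Type} [Field K] (A : Subgroup (RingAut K)) :
    ∃ g : affGroup A, g ∉ affStab A ∧ ∀ q : affGroup A, q ∉ affStab A →
      ∃ h ∈ affStab A, ∃ h' ∈ affStab A, q = h * g * h' := by
  refine ⟨AffDC_tr A 1, ?_, ?_⟩
  · rw [AffDC_mem, AffDC_tr_apply, zero_add]
    exact one_ne_zero
  · intro q hq
    obtain ⟨u, hu, a, ha, t, h⟩ := q.2
    have ht : t ≠ 0 := by
      intro h0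
      apply hq
      rw [AffDC_mem, h, map_zero, mul_zero, zero_add, h0]
    have hu' : t⁻¹ * u ≠ 0 := mul_ne_zero (inv_ne_zero ht) hu
    refine ⟨AffDC_ml A t ht 1 A.one_mem, ?_, AffDC_ml A (t⁻¹ * u) hu' a ha, ?_, ?_⟩
    · rw [AffDC_mem, AffDC_ml_apply, map_zero, mul_zero]
    · rw [AffDC_mem, AffDC_ml_apply, map_zero, mul_zero]
    · apply Subtype.ext
      apply Equiv.ext
      intro y
      have h1 : (AffDC_ml A t ht 1 A.one_mem * AffDC_tr A 1 * AffDC_ml A (t⁻¹ * u) hu' a ha).1 y =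
          (AffDC_ml A t ht 1 A.one_mem).1 ((AffDC_tr A 1).1
            ((AffDC_ml A (t⁻¹ * u) hu' a ha).1 y)) := rfl
      rw [h1, AffDC_ml_apply, AffDC_tr_apply, AffDC_ml_apply, h, RingAut.one_apply]
      field_simp

end Pool.Agent.WBec814
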