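import Pool.Agent.W_bec814_h13.AffDef

set_option autoImplicit false

namespace Pool.Agent.WBec814

theorem AffDer_unique {K : Type} [Field K] {e : K → K} {u u' t t' : K} {a a' : RingAut K}
    (hu : u ≠ 0) (h : ∀ y, e y = u * a y + t) (h' : ∀ y, e y = u' * a' y + t') : a = a' := by
  have h0 : t = t' := by
    have := h 0
    rw [h' 0, map_zero, map_zero, mul_zero, mul_zero, zero_add, zero_add] at this
    exact this.symm
  have h1 : u = u' := by
    have := h 1
    rw [h' 1, map_one, map_one, mul_one, mul_one, h0] at this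
    exact (add_right_cancel this).symm
  refine RingEquiv.ext fun y => ?_
  have := h y
  rw [h' y, h0, h1] at this
  rw [h1] at hu
  exact (mul_left_cancel₀ hu (add_right_cancel this)).symm

/-- the automorphism part -/
noncomputable def AffDer_hom {K : Type} [Field K] (A : Subgroup (RingAut K)) : affGroup A →* A where
  toFun e := ⟨e.2.choose_spec.2.choose, e.2.choose_spec.2.choose_spec.1⟩
  map_one' := by
    apply Subtype.ext
    obtain ⟨hu, ha⟩ := (1 : affGroup A).2.choose_spec
    obtain ⟨t, ht⟩ := ha.choose_spec.2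
    refine (AffDer_unique (e := fun y => y) (u := 1) (t := 0) (a := 1) one_ne_zero
      (fun y => by simp) (u' := (1 : affGroup A).2.choose) (t' := t) ?_).symm
    · intro y
      exact ht y
  map_mul' e f := by
    apply Subtype.ext
    obtain ⟨hu, ha⟩ := (e * f).2.choose_spec
    obtain ⟨t, ht⟩ := ha.choose_spec.2
    obtain ⟨hu1, ha1⟩ := e.2.choose_spec
    obtain ⟨t1, ht1⟩ := ha1.choose_spec.2
    obtain ⟨hu2, ha2⟩ := f.2.choose_spec
    obtain ⟨t2, ht2⟩ := ha2.choose_spec.2
    refine (AffDer_unique (e := fun y => e.1 (f.1 y)) (u := e.2.choose * ha1.choose f.2.choose)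
      (t := e.2.choose * ha1.choose t2 + t1) (a := ha1.choose * ha2.choose)
      (mul_ne_zero hu1 (by simpa using hu2)) (fun y => ?_) (u' := (e * f).2.choose) (t' := t) ?_).symm
    · rw [ht2, ht1, map_add, map_mul, RingAut.mul_apply]
      ring
    · intro y
      exact ht y

theorem AffDer_ker {K : Type} [Field K] (A : Subgroup (RingAut K)) {e : affGroup A}
    (he : AffDer_hom A e = 1) : ∃ u : K, u ≠ 0 ∧ ∃ t : K, ∀ y, e.1 y = u * y + t := by
  obtain ⟨hu, ha⟩ := e.2.choose_spec
  obtain ⟨t, ht⟩ := ha.choose_spec.2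
  have h1 : ha.choose = 1 := congrArg Subtype.val he
  refine ⟨e.2.choose, hu, t, fun y => ?_⟩
  rw [ht y, h1, RingAut.one_apply]

/-- the translations -/
def AffDer_trans {K : Type} [Field K] (A : Subgroup (RingAut K)) : Subgroup (affGroup A) where
  carrier := {e | ∃ t : K, ∀ y, e.1 y = y + t}
  mul_mem' := by
    rintro e e' ⟨t, h⟩ ⟨t', h'⟩
    refine ⟨t' + t, fun y => ?_⟩
    show e.1 (e'.1 y) = _
    rw [h', h, add_assoc]
  one_mem' := ⟨0, fun y => by simp⟩
  inv_mem' := by
    rintro e ⟨t, h⟩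
    refine ⟨-t, fun y => ?_⟩
    show (e.1)⁻¹ y = _
    rw [Equiv.Perm.inv_eq_iff_eq, h]
    ring

/-- `e ↦ a` is a well defined homomorphism `affGroup A → A` (`a y = (e y - e 0)/(e 1 - e 0)`); its
kernel consists of the maps `y ↦ u y + t`, with commutators in the translations. -/
theorem affGroup_derived {K : Type} [Field K] (A : Subgroup (RingAut K))
    (hA : derivedSeries A 2 = ⊥) : derivedSeries (affGroup A) 4 = ⊥ := by
  have h2 : ∀ e ∈ derivedSeries (affGroup A) 2, ∃ u : K, u ≠ 0 ∧ ∃ t : K, ∀ y, e.1 y = u * y + t := by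
    intro e he
    apply AffDer_ker A
    have h := map_derivedSeries_le_derivedSeries (AffDer_hom A) 2 (Subgroup.mem_map_of_mem _ he)
    rwa [hA, Subgroup.mem_bot] at h
  have h3 : derivedSeries (affGroup A) 3 ≤ AffDer_trans A := by
    rw [derivedSeries_succ, Subgroup.commutator_le]
    intro e he f hf
    obtain ⟨u, hu, t, hy⟩ := h2 e he
    obtain ⟨u', hu', t', hy'⟩ := h2 f hf
    refine ⟨u * t' + t - u' * t - t', fun z => ?_⟩
    have h4 : (e * f * e⁻¹ * f⁻¹ * (f * e)).1 ((z - t' - u' * t) / (u' * u)) =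
        (e * f).1 ((z - t' - u' * t) / (u' * u)) := by
      congr 2
      group
    have h5 : (f * e).1 ((z - t' - u' * t) / (u' * u)) = z := by
      show f.1 (e.1 _) = z
      rw [hy, hy']
      field_simp
      ring
    have h6 : (e * f * e⁻¹ * f⁻¹).1 ((f * e).1 ((z - t' - u' * t) / (u' * u))) =
        (e * f).1 ((z - t' - u' * t) / (u' * u)) := h4
    rw [h5] at h6
    show (e * f * e⁻¹ * f⁻¹).1 z = _
    rw [h6]
    show e.1 (f.1 _) = _
    rw [hy', hy]
    field_simp
    ring
  rw [eq_bot_iff, derivedSeries_succ, Subgroup.commutator_le]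
  intro e he f hf
  obtain ⟨t, ht⟩ := h3 he
  obtain ⟨t', ht'⟩ := h3 hf
  rw [Subgroup.mem_bot, commutatorElement_eq_one_iff_mul_comm]
  apply Subtype.ext
  ext y
  show e.1 (f.1 y) = f.1 (e.1 y)
  rw [ht', ht, ht, ht']
  ring

end Pool.Agent.WBec814
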