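import Pool.Agent.W_bec814_h13.AffDef

set_option autoImplicit false

namespace Pool.Agent.WBec814

/-- Multiplications. -/
def AffFG_mulHom (K : Type) [Field K] : Kˣ →* Equiv.Perm K where
  toFun u := ⟨fun y => u * y, fun y => (u⁻¹ : Kˣ) * y, fun y => by simp, fun y => by simp⟩
  map_one' := by ext y; simp
  map_mul' u v := by ext y; simp [mul_assoc]

/-- Automorphisms. -/
def AffFG_autHom (K : Type) [Field K] : RingAut K →* Equiv.Perm K where
  toFun a := a.toEquiv
  map_one' := by ext y; rfl
  map_mul' a b := by ext y; rfl

/-- Translations. -/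
def AffFG_tr {K : Type} [Field K] (t : K) : Equiv.Perm K :=
  ⟨fun y => y + t, fun y => y - t, fun y => by simp, fun y => by simp⟩

theorem AffFG_map_fg {G H : Type} [Group G] [Group H] (A : Subgroup G) (hA : A.FG) (f : G →* H) :
    (A.map f).FG := by
  rw [Subgroup.fg_iff] at hA ⊢
  obtain ⟨S, hS, hf⟩ := hA
  exact ⟨f '' S, by rw [← hS, MonoidHom.map_closure], hf.image _⟩

theorem AffFG_mul_mem {K : Type} [Field K] (A : Subgroup (RingAut K)) (x : Kˣ)
    (hx : Subgroup.closure {u : Kˣ | ∃ a ∈ A, (u : K) = a x} = ⊤)
    (H : Subgroup (Equiv.Perm K)) (hA : ∀ a ∈ A, AffFG_autHom K a ∈ H)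
    (hxH : AffFG_mulHom K x ∈ H) (u : Kˣ) : AffFG_mulHom K u ∈ H := by
  have h1 : Subgroup.closure {u : Kˣ | ∃ a ∈ A, (u : K) = a x} ≤ H.comap (AffFG_mulHom K) := by
    rw [Subgroup.closure_le]
    rintro u ⟨a, ha, hu⟩
    show AffFG_mulHom K u ∈ H
    have h2 : AffFG_mulHom K u = AffFG_autHom K a * AffFG_mulHom K x * AffFG_autHom K a⁻¹ := by
      ext y
      show (u : K) * y = a ((x : K) * a⁻¹ y)
      rw [map_mul, hu]
      congr 1
      rw [← RingAut.mul_apply, mul_inv_cancel, RingAut.one_apply]
    rw [h2]
    exact H.mul_mem (H.mul_mem (hA a ha) hxH) (hA _ (A.inv_mem ha))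
  rw [hx] at h1
  exact h1 (Subgroup.mem_top u)

/-- Generated by the generators of `A`, the multiplication by `x` and the translation by `1`:
the multiplication by `a x` is the conjugate of the multiplication by `x` by `a`; the translation
by `u` is the conjugate of the translation by `1` by the multiplication by `u`. -/
theorem affGroup_fg {K : Type} [Field K] (A : Subgroup (RingAut K)) (hA : A.FG) (x : Kˣ)
    (hx : Subgroup.closure {u : Kˣ | ∃ a ∈ A, (u : K) = a x} = ⊤) : (affGroup A).FG := by
  set H : Subgroup (Equiv.Perm K) := A.map (AffFG_autHom K) ⊔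
    Subgroup.closure {AffFG_mulHom K x, AffFG_tr 1} with hH
  have hHfg : H.FG := by
    apply Subgroup.FG.sup (AffFG_map_fg A hA _)
    rw [Subgroup.fg_iff]
    exact ⟨_, rfl, Set.toFinite _⟩
  have hAH : ∀ a ∈ A, AffFG_autHom K a ∈ H := fun a ha =>
    (le_sup_left : A.map (AffFG_autHom K) ≤ H) (Subgroup.mem_map_of_mem _ ha)
  have hsub : Subgroup.closure {AffFG_mulHom K x, AffFG_tr 1} ≤ H := le_sup_right
  have hxH : AffFG_mulHom K x ∈ H := hsub (Subgroup.subset_closure (by simp))
  have h1H : (AffFG_tr 1 : Equiv.Perm K) ∈ H := hsub (Subgroup.subset_closure (by simp))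
  have hmul := AffFG_mul_mem A x hx H hAH hxH
  have htr : ∀ t : K, AffFG_tr t ∈ H := by
    intro t
    by_cases ht : t = 0
    · have h2 : (AffFG_tr t : Equiv.Perm K) = 1 := by
        ext y
        show y + t = y
        rw [ht, add_zero]
      rw [h2]
      exact H.one_mem
    · have h2 : AffFG_tr t = AffFG_mulHom K (Units.mk0 t ht) * AffFG_tr 1 *
          AffFG_mulHom K (Units.mk0 t ht)⁻¹ := by
        ext y
        show y + t = t * ((((Units.mk0 t ht)⁻¹ : Kˣ) : K) * y + 1)
        rw [mul_add, mul_one, ← mul_assoc]
        congr 1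
        simp [ht]
      rw [h2]
      exact H.mul_mem (H.mul_mem (hmul _) h1H) (hmul _)
  have heq : affGroup A = H := by
    apply le_antisymm
    · rintro e ⟨u, hu, a, ha, t, h⟩
      have h2 : e = AffFG_tr t * AffFG_mulHom K (Units.mk0 u hu) * AffFG_autHom K a := by
        ext y
        rw [h]
        rfl
      rw [h2]
      exact H.mul_mem (H.mul_mem (htr t) (hmul _)) (hAH a ha)
    · rw [hH, sup_le_iff]
      constructor
      · rintro _ ⟨a, ha, rfl⟩
        refine ⟨1, one_ne_zero, a, ha, 0, fun y => ?_⟩
        rw [one_mul, add_zero]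
        rfl
      · rw [Subgroup.closure_le]
        rintro e (he | he)
        · refine ⟨x, x.ne_zero, 1, A.one_mem, 0, fun y => ?_⟩
          rw [he, RingAut.one_apply, add_zero]
          rfl
        · rw [Set.mem_singleton_iff] at he
          refine ⟨1, one_ne_zero, 1, A.one_mem, 1, fun y => ?_⟩
          rw [he, RingAut.one_apply, one_mul]
          rfl
  rw [heq]
  exact hHfg

theorem affStab_fg {K : Type} [Field K] (A : Subgroup (RingAut K)) (hA : A.FG) (x : Kˣ)
    (hx : Subgroup.closure {u : Kˣ | ∃ a ∈ A, (u : K) = a x} = ⊤) : (affStab A).FG := by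
  set H : Subgroup (Equiv.Perm K) := A.map (AffFG_autHom K) ⊔
    Subgroup.closure {AffFG_mulHom K x} with hH
  have hHfg : H.FG := by
    apply Subgroup.FG.sup (AffFG_map_fg A hA _)
    rw [Subgroup.fg_iff]
    exact ⟨_, rfl, Set.toFinite _⟩
  have hAH : ∀ a ∈ A, AffFG_autHom K a ∈ H := fun a ha =>
    (le_sup_left : A.map (AffFG_autHom K) ≤ H) (Subgroup.mem_map_of_mem _ ha)
  have hsub : Subgroup.closure {AffFG_mulHom K x} ≤ H := le_sup_right
  have hxH : AffFG_mulHom K x ∈ H := hsub (Subgroup.subset_closure (by simp))
  have hmul := AffFG_mul_mem A x hx H hAH hxH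
  -- `H` consists of the maps `y ↦ u * a y`
  have hform : H ≤ affGroup A ⊓ { carrier := {e : Equiv.Perm K | e 0 = 0}
                                  mul_mem' := by
                                    intro e e' (h : e 0 = 0) (h' : e' 0 = 0)
                                    show (e * e') 0 = 0
                                    simp [h, h']
                                  one_mem' := by
                                    show (1 : Equiv.Perm K) 0 = 0
                                    simp
                                  inv_mem' := by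
                                    intro e (h : e 0 = 0)
                                    show (e⁻¹) 0 = 0
                                    rw [Equiv.Perm.inv_eq_iff_eq, h] } := by
    rw [hH, sup_le_iff]
    constructor
    · rintro _ ⟨a, ha, rfl⟩
      refine ⟨⟨1, one_ne_zero, a, ha, 0, fun y => ?_⟩, ?_⟩
      · rw [one_mul, add_zero]
        rfl
      · show a 0 = 0
        exact map_zero a
    · rw [Subgroup.closure_le]
      rintro e he
      rw [Set.mem_singleton_iff] at he
      refine ⟨⟨x, x.ne_zero, 1, A.one_mem, 0, fun y => ?_⟩, ?_⟩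
      · rw [he, RingAut.one_apply, add_zero]
        rfl
      · show e 0 = 0
        rw [he]
        show (x : K) * 0 = 0
        rw [mul_zero]
  have hle : H ≤ affGroup A := hform.trans inf_le_left
  have heq : affStab A = H.subgroupOf (affGroup A) := by
    apply le_antisymm
    · rintro ⟨e, u, hu, a, ha, t, h⟩ he
      have he0 : e 0 = 0 := he
      rw [Subgroup.mem_subgroupOf]
      have ht : t = 0 := by
        have := h 0
        rw [he0, map_zero, mul_zero, zero_add] at this
        exact this.symm
      have h2 : e = AffFG_mulHom K (Units.mk0 u hu) * AffFG_autHom K a := by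
        ext y
        rw [h, ht, add_zero]
        rfl
      show e ∈ H
      rw [h2]
      exact H.mul_mem (hmul _) (hAH a ha)
    · rintro ⟨e, he'⟩ he
      rw [Subgroup.mem_subgroupOf] at he
      exact (hform he).2
  rw [heq, ← Group.fg_iff_subgroup_fg]
  have : Group.FG H := (Group.fg_iff_subgroup_fg H).mpr hHfg
  exact Group.fg_of_surjective (f := (Subgroup.subgroupOfEquivOfLe hle).symm.toMonoidHom)
    (Subgroup.subgroupOfEquivOfLe hle).symm.surjective

end Pool.Agent.WBec814
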