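import Pool.Agent.W_bec814_h13.AffDef

set_option autoImplicit false

namespace Pool.Agent.WBec814

/-- the action on `K` is faithful: the stabiliser of `0` is core-free -/
theorem affStab_core {K : Type} [Field K] (A : Subgroup (RingAut K)) :
    (affStab A).normalCore = ⊥ := by
  rw [eq_bot_iff]
  intro e he
  rw [Subgroup.mem_bot]
  have htr : ∀ t : K, Equiv.addRight t ∈ affGroup A := fun t =>
    ⟨1, one_ne_zero, 1, A.one_mem, t, fun y => by simp⟩
  apply Subtype.ext
  ext y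
  have h := he ⟨Equiv.addRight (-y), htr (-y)⟩
  have h2 : ((⟨Equiv.addRight (-y), htr (-y)⟩ : affGroup A) * e *
      (⟨Equiv.addRight (-y), htr (-y)⟩ : affGroup A)⁻¹).1 0 = 0 := h
  have h3 : e.1 y + -y = 0 := by
    have h4 : ((⟨Equiv.addRight (-y), htr (-y)⟩ : affGroup A)⁻¹).1 (0 : K) = y := by
      show ((Equiv.addRight (-y))⁻¹ : Equiv.Perm K) 0 = y
      rw [Equiv.Perm.inv_eq_iff_eq]
      simp
    have h5 : ((⟨Equiv.addRight (-y), htr (-y)⟩ : affGroup A) * e *
      (⟨Equiv.addRight (-y), htr (-y)⟩ : affGroup A)⁻¹).1 0 =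
        e.1 (((⟨Equiv.addRight (-y), htr (-y)⟩ : affGroup A)⁻¹).1 (0 : K)) + -y := rfl
    rw [h5, h4] at h2
    exact h2
  show e.1 y = y
  exact (add_neg_eq_zero.1 h3)

end Pool.Agent.WBec814
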