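import Pool.Agent.W_bec814_h13.WreathQI

set_option autoImplicit false

namespace Pool.Agent.WBec814

/-- `H` has exactly two double cosets in `Q` -/
def TwoDoubleCosets {Q : Type} [Group Q] (H : Subgroup Q) : Prop :=
  ∃ g ∉ H, ∀ q ∉ H, ∃ h ∈ H, ∃ h' ∈ H, q = h * g * h'

/-- the group of the functions `X → F` of finite support, under pointwise multiplication -/
def FinFun (X F : Type) [Group F] : Type := finFun X F

instance groupFinFun (X F : Type) [Group F] : Group (FinFun X F) :=
  inferInstanceAs (Group (finFun X F))

/-- `x ↦ f (q x)` -/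
def transl {Q X F : Type} [Group Q] [MulAction Q X] [Group F] (q : Q) (f : FinFun X F) :
    FinFun X F :=
  ⟨fun x => f.1 (q • x), permFun_mem q f⟩

theorem transl_left {Q X F : Type} [Group Q] [MulAction Q X] [Group F] (q : Q) (f : FinFun X F) :
    transl q (transl q⁻¹ f) = f := permFun_left q f

theorem transl_right {Q X F : Type} [Group Q] [MulAction Q X] [Group F] (q : Q)
    (f : FinFun X F) : transl q⁻¹ (transl q f) = f := permFun_right q f

theorem transl_mul {Q X F : Type} [Group Q] [MulAction Q X] [Group F] (q : Q)
    (f f' : FinFun X F) : transl q⁻¹ (f * f') = transl q⁻¹ f * transl q⁻¹ f' :=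
  permFun_mul q f f'

/-- the automorphism `f ↦ (x ↦ f (q⁻¹ x))` -/
def translEquiv {Q X F : Type} [Group Q] [MulAction Q X] [Group F] (q : Q) :
    FinFun X F ≃* FinFun X F where
  toFun := transl q⁻¹
  invFun := transl q
  left_inv := transl_left q
  right_inv := transl_right q
  map_mul' := transl_mul q

theorem translEquiv_one (Q X F : Type) [Group Q] [MulAction Q X] [Group F] :
    (translEquiv (1 : Q) : FinFun X F ≃* FinFun X F) = MulEquiv.refl _ := permEquiv_one Q X F

theorem translEquiv_mul (Q X F : Type) [Group Q] [MulAction Q X] [Group F] (q q' : Q) :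
    (translEquiv (q * q') : FinFun X F ≃* FinFun X F) =
      (translEquiv q').trans (translEquiv q) := permEquiv_mul Q X F q q'

/-- the action of `Q` on `FinFun X F`, `(q f) x = f (q⁻¹ x)` -/
def translHom (Q X F : Type) [Group Q] [MulAction Q X] [Group F] : Q →* MulAut (FinFun X F) where
  toFun := translEquiv
  map_one' := translEquiv_one Q X F
  map_mul' := translEquiv_mul Q X F

/-- the restricted permutational wreath product `F ≀ Q` over `Q ⧸ H` -/
def PermWreath {Q : Type} [Group Q] (H : Subgroup Q) (F : Type) [Group F] : Type :=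
  SemidirectProduct (FinFun (Q ⧸ H) F) Q (translHom Q (Q ⧸ H) F)

instance groupPermWreath {Q : Type} [Group Q] (H : Subgroup Q) (F : Type) [Group F] :
    Group (PermWreath H F) :=
  SemidirectProduct.instGroup

/-- the base point `H` of `Q ⧸ H` -/
def basePt {Q : Type} [Group Q] (H : Subgroup Q) : Q ⧸ H := ((1 : Q) : Q ⧸ H)

open Classical in
/-- the function `f` at the point `x₀` and `1` elsewhere -/
noncomputable def lampOf {X F : Type} [Group F] (x₀ : X) (f : F) : FinFun X F :=
  ⟨fun x => if x = x₀ then f else 1, lamp_mem x₀ f⟩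

theorem lampOf_one {X F : Type} [Group F] (x₀ : X) : lampOf x₀ (1 : F) = 1 := lamp_one x₀

theorem lampOf_mul {X F : Type} [Group F] (x₀ : X) (f f' : F) :
    lampOf x₀ (f * f') = lampOf x₀ f * lampOf x₀ f' := lamp_mul x₀ f f'

/-- `F` as the lamp group at the point `x₀` -/
noncomputable def lampAt {X : Type} (F : Type) [Group F] (x₀ : X) : F →* FinFun X F where
  toFun := lampOf x₀
  map_one' := lampOf_one x₀
  map_mul' := lampOf_mul x₀

/-- the inclusion of the functions -/
def funIncl {Q : Type} [Group Q] (H : Subgroup Q) (F : Type) [Group F] :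
    FinFun (Q ⧸ H) F →* PermWreath H F := SemidirectProduct.inl

/-- the inclusion of `Q` -/
def baseIncl {Q : Type} [Group Q] (H : Subgroup Q) (F : Type) [Group F] :
    Q →* PermWreath H F := SemidirectProduct.inr

/-- the inclusion of the lamp group at the coset `H` -/
noncomputable def lampIncl {Q : Type} [Group Q] (H : Subgroup Q) (F : Type) [Group F] :
    F →* PermWreath H F := (funIncl H F).comp (lampAt F (basePt H))

/-- the canonical map `Q * F → F ≀ Q`: the identity on `Q`, and `F` as the lamp group at the
coset `H` -/
noncomputable def canonMap {Q : Type} [Group Q] (H : Subgroup Q) (F : Type) [Group F] :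
    Monoid.Coprod Q F →* PermWreath H F :=
  Monoid.Coprod.lift (baseIncl H F) (lampIncl H F)

/-- the wreath product `F ≀ Q` is the quotient of `Q * F` by the normal closure of a finite set -/
def RelFinPres {Q : Type} [Group Q] (H : Subgroup Q) (F : Type) [Group F] : Prop :=
  Function.Surjective (canonMap H F) ∧ ∃ R : Finset (Monoid.Coprod Q F),
    (canonMap H F).ker = Subgroup.normalClosure (R : Set (Monoid.Coprod Q F))

/-- no subgroup of finite index is soluble -/
def NotVirtuallySoluble (Γ : Type) [Group Γ] : Prop :=
  ∀ L : Subgroup Γ, L.FiniteIndex → ¬ Group.IsSolvable L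

end Pool.Agent.WBec814
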