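import Pool.Agent.W_bec814_h13.Wreath

/-! `F ≀_{Q/H} Q` is finitely presented relative to `Q`. -/

set_option autoImplicit false
set_option linter.unusedSectionVars false

namespace Pool.Agent.WBec814

/-! ### elementary facts on `lamp` and `permAct` -/

section lamp

variable {Q X F : Type} [Group Q] [MulAction Q X] [Group F]

theorem WreathFP_lamp_self (x : X) (a : F) : (lamp X F x a).1 x = a := by
  simp [lamp]

theorem WreathFP_lamp_ne {x y : X} (h : y ≠ x) (a : F) : (lamp X F x a).1 y = 1 := by
  simp [lamp, h]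

theorem WreathFP_permAct_lamp (q : Q) (x : X) (a : F) :
    permAct Q X F q (lamp X F x a) = lamp X F (q • x) a := by
  apply Subtype.ext
  funext y
  change (lamp X F x a).1 (q⁻¹ • y) = (lamp X F (q • x) a).1 y
  by_cases h : y = q • x
  · subst h
    rw [inv_smul_smul, WreathFP_lamp_self, WreathFP_lamp_self]
  · rw [WreathFP_lamp_ne h, WreathFP_lamp_ne]
    intro h2
    apply h
    rw [← h2, smul_inv_smul]

theorem WreathFP_lamp_commute {x y : X} (h : x ≠ y) (a b : F) :
    Commute (lamp X F x a) (lamp X F y b) := by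
  apply Subtype.ext
  funext z
  change (lamp X F x a).1 z * (lamp X F y b).1 z = (lamp X F y b).1 z * (lamp X F x a).1 z
  by_cases h1 : z = x
  · have h2 : z ≠ y := fun h2 => h (h1.symm.trans h2)
    rw [WreathFP_lamp_ne h2, mul_one, one_mul]
  · rw [WreathFP_lamp_ne h1, mul_one, one_mul]

end lamp

theorem WreathFP_canon_inl (Q F : Type) [Group Q] [Group F] (H : Subgroup Q) (q : Q) :
    canon Q F H (Monoid.Coprod.inl q) = SemidirectProduct.inr q := by
  simp [canon]

theorem WreathFP_canon_inr (Q F : Type) [Group Q] [Group F] (H : Subgroup Q) (a : F) :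
    canon Q F H (Monoid.Coprod.inr a) =
      SemidirectProduct.inl (lamp (Q ⧸ H) F ((1 : Q) : Q ⧸ H) a) := by
  simp [canon]

/-- conjugating a lamp at the base point -/
theorem WreathFP_conj (Q F : Type) [Group Q] [Group F] (H : Subgroup Q) (q : Q) (a : F) :
    (SemidirectProduct.inr q : Wr Q (Q ⧸ H) F) *
        SemidirectProduct.inl (lamp (Q ⧸ H) F ((1 : Q) : Q ⧸ H) a) *
        (SemidirectProduct.inr q)⁻¹ =
      SemidirectProduct.inl (lamp (Q ⧸ H) F (q : Q ⧸ H) a) := by
  rw [← map_inv, ← SemidirectProduct.inl_aut, WreathFP_permAct_lamp]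
  congr 2
  simp

theorem canon_surjective (Q F : Type) [Group Q] [Group F] (H : Subgroup Q) :
    Function.Surjective (canon Q F H) := by
  classical
  rw [← MonoidHom.range_eq_top]
  have hr : ∀ q : Q, (SemidirectProduct.inr q : Wr Q (Q ⧸ H) F) ∈ (canon Q F H).range :=
    fun q => ⟨Monoid.Coprod.inl q, WreathFP_canon_inl Q F H q⟩
  have hl1 : ∀ (x : Q ⧸ H) (a : F),
      (SemidirectProduct.inl (lamp (Q ⧸ H) F x a) : Wr Q (Q ⧸ H) F) ∈ (canon Q F H).range := by
    intro x a
    obtain ⟨q, rfl⟩ := QuotientGroup.mk_surjective x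
    rw [← WreathFP_conj]
    exact mul_mem (mul_mem (hr q) ⟨Monoid.Coprod.inr a, WreathFP_canon_inr Q F H a⟩)
      (inv_mem (hr q))
  have hl : ∀ (s : Finset (Q ⧸ H)) (f : finFun (Q ⧸ H) F), Function.mulSupport f.1 ⊆ s →
      (SemidirectProduct.inl f : Wr Q (Q ⧸ H) F) ∈ (canon Q F H).range := by
    intro s
    induction s using Finset.induction_on with
    | empty =>
      intro f hf
      have h1 : f = 1 := by
        apply Subtype.ext
        funext x
        by_contra hx
        exact absurd (hf hx) (by simp)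
      rw [h1, map_one]
      exact one_mem _
    | insert x s hx ih =>
      intro f hf
      have h1 : f = lamp (Q ⧸ H) F x (f.1 x) * ((lamp (Q ⧸ H) F x (f.1 x))⁻¹ * f) := by
        rw [mul_inv_cancel_left]
      have h2 : (SemidirectProduct.inl ((lamp (Q ⧸ H) F x (f.1 x))⁻¹ * f) : Wr Q (Q ⧸ H) F) ∈
          (canon Q F H).range := by
        apply ih
        intro y hy
        have hval : ((lamp (Q ⧸ H) F x (f.1 x))⁻¹ * f).1 y =
            ((lamp (Q ⧸ H) F x (f.1 x)).1 y)⁻¹ * f.1 y := rfl
        rw [Function.mem_mulSupport, hval] at hy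
        by_cases hyx : y = x
        · subst hyx
          rw [WreathFP_lamp_self, inv_mul_cancel] at hy
          exact absurd rfl hy
        · rw [WreathFP_lamp_ne hyx, inv_one, one_mul] at hy
          have h3 := hf hy
          rw [Finset.coe_insert, Set.mem_insert_iff] at h3
          exact h3.resolve_left hyx
      rw [h1, map_mul]
      exact mul_mem (hl1 x _) h2
  rw [eq_top_iff]
  intro w _
  rw [← SemidirectProduct.inl_left_mul_inr_right w]
  refine mul_mem (hl w.left.2.toFinset w.left ?_) (hr _)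
  intro x hx
  simpa using hx

/-! ### the evaluation of a finitely supported function -/

section ev

variable {X F Γ : Type*} [Group F] [Group Γ] (ι : X → F → Γ)
  (hc : ∀ x y, x ≠ y → ∀ a b, Commute (ι x a) (ι y b))

include hc in
theorem WreathFP_pairwise (s : Finset X) (f : X → F) :
    (s : Set X).Pairwise (Function.onFun Commute fun x => ι x (f x)) :=
  fun x _ y _ hxy => hc x y hxy _ _

/-- the product of the `ι x (f x)`, `x ∈ s` -/
noncomputable def WreathFP_E (s : Finset X) (f : X → F) : Γ :=
  s.noncommProd (fun x => ι x (f x)) (WreathFP_pairwise ι hc s f)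

theorem WreathFP_E_mono [DecidableEq X] (h1 : ∀ x, ι x 1 = 1) {s t : Finset X} (hst : s ⊆ t)
    {f : X → F} (hf : ∀ x ∈ t, x ∉ s → f x = 1) :
    WreathFP_E ι hc t f = WreathFP_E ι hc s f := by
  unfold WreathFP_E
  have h2 : t = s ∪ (t \ s) := (Finset.union_sdiff_of_subset hst).symm
  have h3 : ∀ x ∈ t \ s, ι x (f x) = 1 := by
    intro x hx
    rw [Finset.mem_sdiff] at hx
    rw [hf x hx.1 hx.2, h1]
  calc t.noncommProd (fun x => ι x (f x)) (WreathFP_pairwise ι hc t f)
      = (s ∪ (t \ s)).noncommProd (fun x => ι x (f x)) (WreathFP_pairwise ι hc _ f) :=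
        Finset.noncommProd_congr h2 (fun _ _ => rfl) _
    _ = s.noncommProd (fun x => ι x (f x)) (WreathFP_pairwise ι hc s f) *
        (t \ s).noncommProd (fun x => ι x (f x)) (WreathFP_pairwise ι hc _ f) :=
        Finset.noncommProd_union_of_disjoint Finset.disjoint_sdiff _ _
    _ = s.noncommProd (fun x => ι x (f x)) (WreathFP_pairwise ι hc s f) := by
        rw [Finset.noncommProd_eq_pow_card (t \ s) _ _ 1 h3, one_pow, mul_one]

/-- changing the value at one point -/
theorem WreathFP_E_mul [DecidableEq X] (hm : ∀ x a b, ι x (a * b) = ι x a * ι x b)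
    {s : Finset X} {x : X} (hx : x ∈ s) {f g : X → F} {a : F} (hg : g x = f x * a)
    (hfg : ∀ y, y ≠ x → g y = f y) :
    WreathFP_E ι hc s g = WreathFP_E ι hc s f * ι x a := by
  unfold WreathFP_E
  rw [← Finset.mul_noncommProd_erase s hx (fun x => ι x (g x)) (WreathFP_pairwise ι hc s g),
    ← Finset.mul_noncommProd_erase s hx (fun x => ι x (f x)) (WreathFP_pairwise ι hc s f)]
  have h1 : (s.erase x).noncommProd (fun x => ι x (g x))
      (fun y hy z hz hyz => WreathFP_pairwise ι hc s g (Finset.mem_of_mem_erase hy)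
        (Finset.mem_of_mem_erase hz) hyz) =
      (s.erase x).noncommProd (fun x => ι x (f x))
      (fun y hy z hz hyz => WreathFP_pairwise ι hc s f (Finset.mem_of_mem_erase hy)
        (Finset.mem_of_mem_erase hz) hyz) := by
    refine Finset.noncommProd_congr rfl (fun y hy => ?_) _
    rw [hfg y (Finset.ne_of_mem_erase hy)]
  have h2 : Commute (ι x a) ((s.erase x).noncommProd (fun x => ι x (f x))
      (fun y hy z hz hyz => WreathFP_pairwise ι hc s f (Finset.mem_of_mem_erase hy)
        (Finset.mem_of_mem_erase hz) hyz)) := by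
    apply Finset.noncommProd_commute
    intro y hy
    exact hc x y (Finset.ne_of_mem_erase hy).symm _ _
  rw [h1]
  change ι x (g x) * _ = ι x (f x) * _ * ι x a
  rw [hg, hm, mul_assoc, mul_assoc, h2.eq]

end ev

/-- If `H` is finitely generated, `Q` is a finite union of double cosets `H g H` and `F` is finite,
then the kernel of `canon` is the normal closure of the finite set
`{[h, f] : h ∈ S, f ∈ F} ∪ {[f, g f' g⁻¹] : g ∈ D, g ∉ H, f, f' ∈ F}` (`S` a finite generating set
of `H`).
Proof. Let `Γ` be the quotient of `Q * F` by this normal closure, `j : F →* Γ`, `i : Q →* Γ`.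
(1) `i h` commutes with `j f` for all `h ∈ H` (closure induction). (2) for `q ∉ H` the elements
`i q * j f' * (i q)⁻¹` and `j f` commute: `q = h g h'`, use (1). (3) for `x : Q ⧸ H` put
`ι x f = i x.out * j f * (i x.out)⁻¹`; by (1) `ι (q H) f = i q * j f * (i q)⁻¹` for every `q`, so
`i q * ι x f * (i q)⁻¹ = ι (q • x) f`; by (2) `ι x f` and `ι y f'` commute for `x ≠ y`.
(4) For `f : finFun` put `E f = ∏_{x ∈ mulSupport f} ι x (f x)` (`Finset.noncommProd`); then
`E (f f') = E f E f'`, `E (q f) = i q * E f * (i q)⁻¹`; this defines a homomorphism `Wr → Γ`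
(`SemidirectProduct.lift`), left inverse of the map `Γ → Wr`. Hence `Γ → Wr` is injective.
(Alternative for (4): show that every element of `Γ` is of the form `E f * i q`, by induction.) -/
theorem canon_ker (Q F : Type) [Group Q] [Group F] [Finite F] (H : Subgroup Q) (hH : H.FG)
    (D : Finset Q) (hD : ∀ q : Q, q ∉ H → ∃ g ∈ D, g ∉ H ∧ ∃ h ∈ H, ∃ h' ∈ H, q = h * g * h') :
    ∃ R : Finset (Monoid.Coprod Q F),
      (canon Q F H).ker = Subgroup.normalClosure (R : Set (Monoid.Coprod Q F)) := by
  classical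
  obtain ⟨S, hS⟩ := hH
  -- the relators
  let r1 : Q × F → Monoid.Coprod Q F := fun p =>
    Monoid.Coprod.inl p.1 * Monoid.Coprod.inr p.2 *
      (Monoid.Coprod.inr p.2 * Monoid.Coprod.inl p.1)⁻¹
  let r2 : Q × F × F → Monoid.Coprod Q F := fun p =>
    (Monoid.Coprod.inr p.2.1 *
      (Monoid.Coprod.inl p.1 * Monoid.Coprod.inr p.2.2 * (Monoid.Coprod.inl p.1)⁻¹)) *
    ((Monoid.Coprod.inl p.1 * Monoid.Coprod.inr p.2.2 * (Monoid.Coprod.inl p.1)⁻¹) *
      Monoid.Coprod.inr p.2.1)⁻¹
  let R0 : Set (Monoid.Coprod Q F) :=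
    r1 '' ((S : Set Q) ×ˢ (Set.univ : Set F)) ∪
      r2 '' ({g | g ∈ D ∧ g ∉ H} ×ˢ (Set.univ : Set (F × F)))
  have hR0 : R0.Finite := by
    refine Set.Finite.union (Set.Finite.image _ ?_) (Set.Finite.image _ ?_)
    · exact (Finset.finite_toSet S).prod Set.finite_univ
    · exact ((Finset.finite_toSet D).subset fun g hg => hg.1).prod Set.finite_univ
  refine ⟨hR0.toFinset, ?_⟩
  rw [Set.Finite.coe_toFinset]
  apply le_antisymm
  · -- the hard inclusion
    let Γ := Monoid.Coprod Q F ⧸ Subgroup.normalClosure R0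
    let pr : Monoid.Coprod Q F →* Γ := QuotientGroup.mk' (Subgroup.normalClosure R0)
    let i : Q →* Γ := pr.comp Monoid.Coprod.inl
    let j : F →* Γ := pr.comp Monoid.Coprod.inr
    have hrel : ∀ r ∈ R0, pr r = 1 := fun r hr =>
      (QuotientGroup.eq_one_iff r).2 (Subgroup.subset_normalClosure hr)
    -- (1)
    have h1 : ∀ h ∈ H, ∀ f : F, Commute (i h) (j f) := by
      intro h hh f
      have h2 : H ≤ (Subgroup.centralizer {j f}).comap i := by
        rw [← hS, Subgroup.closure_le]
        intro s hs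
        rw [SetLike.mem_coe, Subgroup.mem_comap, Subgroup.mem_centralizer_singleton_iff]
        have h3 : pr (r1 (s, f)) = 1 := hrel _ (Or.inl ⟨(s, f), ⟨hs, Set.mem_univ _⟩, rfl⟩)
        have h4 : i s * j f * (j f * i s)⁻¹ = 1 := by
          rw [← h3]
          simp only [r1, i, j, MonoidHom.comp_apply, map_mul, map_inv]
        exact (mul_inv_eq_one.1 h4)
      have h5 := h2 hh
      rw [Subgroup.mem_comap, Subgroup.mem_centralizer_singleton_iff] at h5
      exact h5
    -- (2)
    have h2 : ∀ q, q ∉ H → ∀ f f' : F, Commute (j f) (i q * j f' * (i q)⁻¹) := by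
      intro q hq f f'
      obtain ⟨g, hgD, hgH, h, hh, h', hh', rfl⟩ := hD q hq
      have h3 : Commute (j f) (i g * j f' * (i g)⁻¹) := by
        have h4 : pr (r2 (g, f, f')) = 1 :=
          hrel _ (Or.inr ⟨(g, f, f'), ⟨⟨hgD, hgH⟩, Set.mem_univ _⟩, rfl⟩)
        have h5 : (j f * (i g * j f' * (i g)⁻¹)) * ((i g * j f' * (i g)⁻¹) * j f)⁻¹ = 1 := by
          rw [← h4]
          simp only [r2, i, j, MonoidHom.comp_apply, map_mul, map_inv]
        exact mul_inv_eq_one.1 h5
      have e1 : j f = i h * j f * (i h)⁻¹ := by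
        rw [(h1 h hh f).eq, mul_inv_cancel_right]
      have e2 : i (h * g * h') * j f' * (i (h * g * h'))⁻¹ =
          i h * (i g * j f' * (i g)⁻¹) * (i h)⁻¹ := by
        have e3 : i h' * j f' * (i h')⁻¹ = j f' := by
          rw [(h1 h' hh' f').eq, mul_inv_cancel_right]
        calc i (h * g * h') * j f' * (i (h * g * h'))⁻¹
            = i h * i g * (i h' * j f' * (i h')⁻¹) * (i g)⁻¹ * (i h)⁻¹ := by
              rw [map_mul, map_mul]; group
          _ = i h * (i g * j f' * (i g)⁻¹) * (i h)⁻¹ := by
              rw [e3]; group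
      rw [e1, e2]
      exact (Commute.conj_iff (i h)).2 h3
    -- (3)
    let ι : Q ⧸ H → F → Γ := fun x f => i x.out * j f * (i x.out)⁻¹
    have hι1 : ∀ x, ι x 1 = 1 := by
      intro x
      simp only [ι, map_one, mul_one, mul_inv_cancel]
    have hιm : ∀ x a b, ι x (a * b) = ι x a * ι x b := by
      intro x a b
      simp only [ι, map_mul]
      group
    have hιq : ∀ (q : Q) (f : F), ι (q : Q ⧸ H) f = i q * j f * (i q)⁻¹ := by
      intro q f
      obtain ⟨h, hh⟩ := QuotientGroup.mk_out_eq_mul H q
      have e1 : i h * j f * (i h)⁻¹ = j f := by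
        rw [(h1 h h.2 f).eq, mul_inv_cancel_right]
      simp only [ι]
      rw [hh, map_mul]
      calc i q * i h * j f * (i q * i h)⁻¹ = i q * (i h * j f * (i h)⁻¹) * (i q)⁻¹ := by group
        _ = i q * j f * (i q)⁻¹ := by rw [e1]
    have hc : ∀ x y, x ≠ y → ∀ a b, Commute (ι x a) (ι y b) := by
      intro x y hxy a b
      obtain ⟨q, rfl⟩ := QuotientGroup.mk_surjective x
      obtain ⟨q', rfl⟩ := QuotientGroup.mk_surjective y
      have h3 : q⁻¹ * q' ∉ H := fun h3 => hxy (QuotientGroup.eq.2 h3)
      have h4 := h2 _ h3 a b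
      rw [hιq, hιq]
      have e1 : i q' * j b * (i q')⁻¹ =
          i q * (i (q⁻¹ * q') * j b * (i (q⁻¹ * q'))⁻¹) * (i q)⁻¹ := by
        rw [map_mul, map_inv]; group
      rw [e1]
      exact (Commute.conj_iff (i q)).2 h4
    -- (4)
    have key : ∀ w : Monoid.Coprod Q F, ∀ s : Finset (Q ⧸ H),
        Function.mulSupport (canon Q F H w⁻¹).left.1 ⊆ s →
        pr w⁻¹ = WreathFP_E ι hc s (canon Q F H w⁻¹).left.1 * i (canon Q F H w⁻¹).right := by
      intro w
      induction w using Monoid.Coprod.induction_on' with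
      | one =>
        intro s _
        have e1 : WreathFP_E ι hc s (fun _ => (1 : F)) = 1 := by
          rw [WreathFP_E_mono ι hc hι1 (Finset.empty_subset s) (fun _ _ _ => rfl)]
          simp [WreathFP_E]
        rw [inv_one, map_one, map_one, SemidirectProduct.one_left, SemidirectProduct.one_right,
          map_one, mul_one]
        exact e1.symm
      | inl_mul q y ih =>
        intro s hs
        have e1 : canon Q F H (Monoid.Coprod.inl q * y)⁻¹ =
            canon Q F H y⁻¹ * SemidirectProduct.inr q⁻¹ := by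
          rw [mul_inv_rev, map_mul, ← map_inv, WreathFP_canon_inl]
        have e2 : (canon Q F H (Monoid.Coprod.inl q * y)⁻¹).left = (canon Q F H y⁻¹).left := by
          rw [e1, SemidirectProduct.mul_left, SemidirectProduct.left_inr, map_one, mul_one]
        have e3 : (canon Q F H (Monoid.Coprod.inl q * y)⁻¹).right =
            (canon Q F H y⁻¹).right * q⁻¹ := by
          rw [e1, SemidirectProduct.mul_right, SemidirectProduct.right_inr]
        rw [e2] at hs ⊢
        rw [e3, map_mul, ← mul_assoc, ← ih s hs, mul_inv_rev, map_mul, map_inv i]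
        simp only [i, MonoidHom.comp_apply, map_inv]
      | inr_mul a y ih =>
        intro s hs
        obtain ⟨q, hq⟩ : ∃ q, q = (canon Q F H y⁻¹).right := ⟨_, rfl⟩
        have e1 : canon Q F H (Monoid.Coprod.inr a * y)⁻¹ =
            canon Q F H y⁻¹ *
              SemidirectProduct.inl (lamp (Q ⧸ H) F ((1 : Q) : Q ⧸ H) a⁻¹) := by
          rw [mul_inv_rev, map_mul, ← map_inv, WreathFP_canon_inr]
        have e2 : (canon Q F H (Monoid.Coprod.inr a * y)⁻¹).left =
            (canon Q F H y⁻¹).left * lamp (Q ⧸ H) F (q : Q ⧸ H) a⁻¹ := by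
          rw [e1, SemidirectProduct.mul_left, SemidirectProduct.left_inl, WreathFP_permAct_lamp,
            ← hq]
          congr 3
          simp
        have e3 : (canon Q F H (Monoid.Coprod.inr a * y)⁻¹).right = q := by
          rw [e1, SemidirectProduct.mul_right, SemidirectProduct.right_inl, mul_one, hq]
        -- a larger finite set
        obtain ⟨t, ht⟩ : ∃ t : Finset (Q ⧸ H), t = insert (q : Q ⧸ H) s := ⟨_, rfl⟩
        have hst : s ⊆ t := by rw [ht]; exact Finset.subset_insert _ _
        have hqt : (q : Q ⧸ H) ∈ t := by rw [ht]; exact Finset.mem_insert_self _ _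
        have e4 : WreathFP_E ι hc s (canon Q F H (Monoid.Coprod.inr a * y)⁻¹).left.1 =
            WreathFP_E ι hc t (canon Q F H (Monoid.Coprod.inr a * y)⁻¹).left.1 := by
          refine (WreathFP_E_mono ι hc hι1 hst fun x _ hx => ?_).symm
          by_contra h3
          exact hx (hs h3)
        have hval : ∀ x, (canon Q F H (Monoid.Coprod.inr a * y)⁻¹).left.1 x =
            (canon Q F H y⁻¹).left.1 x * (lamp (Q ⧸ H) F (q : Q ⧸ H) a⁻¹).1 x := by
          intro x
          rw [e2]
          rfl
        have hsupp : Function.mulSupport (canon Q F H y⁻¹).left.1 ⊆ t := by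
          intro x hx
          by_cases hxq : x = (q : Q ⧸ H)
          · rw [hxq]; exact hqt
          · apply hst
            apply hs
            rw [Function.mem_mulSupport, hval, WreathFP_lamp_ne hxq, mul_one]
            exact hx
        have e5 : WreathFP_E ι hc t (canon Q F H (Monoid.Coprod.inr a * y)⁻¹).left.1 =
            WreathFP_E ι hc t (canon Q F H y⁻¹).left.1 * ι (q : Q ⧸ H) a⁻¹ := by
          refine WreathFP_E_mul ι hc hιm hqt ?_ fun x hx => ?_
          · rw [hval, WreathFP_lamp_self]
          · rw [hval, WreathFP_lamp_ne hx, mul_one]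
        rw [e4, e5, e3, hιq, mul_inv_rev, map_mul, ih t hsupp, ← hq]
        have e6 : pr (Monoid.Coprod.inr a)⁻¹ = j a⁻¹ := by
          simp only [j, MonoidHom.comp_apply, map_inv]
        rw [e6]
        group
    intro w hw
    rw [MonoidHom.mem_ker] at hw
    have h3 := key w⁻¹ ∅
    rw [inv_inv, hw] at h3
    have h4 := h3 (by
      intro x hx
      exact absurd rfl hx)
    have h5 : pr w = 1 := by
      rw [h4]
      simp [WreathFP_E]
    exact (QuotientGroup.eq_one_iff w).1 h5
  · -- the relators are in the kernel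
    apply Subgroup.normalClosure_le_normal
    rintro r (⟨⟨h, f⟩, ⟨hh, -⟩, rfl⟩ | ⟨⟨g, f, f'⟩, ⟨⟨-, hg⟩, -⟩, rfl⟩)
    · rw [SetLike.mem_coe, MonoidHom.mem_ker]
      simp only [r1]
      rw [map_mul, map_inv, mul_inv_eq_one, map_mul, map_mul, WreathFP_canon_inl,
        WreathFP_canon_inr]
      have h3 := WreathFP_conj Q F H h f
      have h4 : ((h : Q) : Q ⧸ H) = ((1 : Q) : Q ⧸ H) := by
        rw [QuotientGroup.eq, mul_one, inv_mem_iff, ← hS]
        exact Subgroup.subset_closure hh
      rw [h4, mul_inv_eq_iff_eq_mul] at h3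
      exact h3
    · rw [SetLike.mem_coe, MonoidHom.mem_ker]
      simp only [r2]
      rw [map_mul, map_inv, mul_inv_eq_one]
      simp only [map_mul, map_inv]
      rw [WreathFP_canon_inl, WreathFP_canon_inr, WreathFP_canon_inr, WreathFP_conj,
        ← map_mul, ← map_mul]
      congr 1
      apply (WreathFP_lamp_commute _ f f').eq
      intro h3
      apply hg
      rw [QuotientGroup.eq, inv_one, one_mul] at h3
      exact h3

end Pool.Agent.WBec814
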