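import Pool.Agent.W_bec814_h13.Wreath

/-! Isomorphic Cayley graphs; solubility. -/

set_option autoImplicit false

namespace Pool.Agent.WBec814

/-- the Cayley graphs of two groups with respect to some finite generating sets are isomorphic -/
def CayleyIso (Γ Γ' : Type) [Group Γ] [Group Γ'] : Prop :=
  ∃ (S : Finset Γ) (T : Finset Γ'), Subgroup.closure (S : Set Γ) = ⊤ ∧
    Subgroup.closure (T : Set Γ') = ⊤ ∧
    ∃ Φ : Γ ≃ Γ', ∀ a b : Γ, (∃ s ∈ S, b = a * s) ↔ (∃ t ∈ T, Φ b = Φ a * t)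

theorem WreathQI_lamp_apply_self (X F : Type) [Group F] (x : X) (a : F) :
    (lamp X F x a).1 x = a := by
  simp [lamp]

theorem WreathQI_lamp_apply_ne (X F : Type) [Group F] {x y : X} (h : y ≠ x) (a : F) :
    (lamp X F x a).1 y = 1 := by
  simp [lamp, h]

theorem WreathQI_permAct_lamp (Q X F : Type) [Group Q] [MulAction Q X] [Group F] (q : Q) (x : X)
    (a : F) : permAct Q X F q (lamp X F x a) = lamp X F (q • x) a := by
  ext y
  show (lamp X F x a).1 (q⁻¹ • y) = (lamp X F (q • x) a).1 y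
  by_cases h : y = q • x
  · subst h
    rw [inv_smul_smul, WreathQI_lamp_apply_self, WreathQI_lamp_apply_self]
  · rw [WreathQI_lamp_apply_ne X F h, WreathQI_lamp_apply_ne]
    intro h'
    exact h (by rw [← h', smul_inv_smul])

theorem WreathQI_inl_mem (Q X F : Type) [Group Q] [MulAction Q X] [Group F]
    (K : Subgroup (Wr Q X F)) (hK : ∀ x a, SemidirectProduct.inl (lamp X F x a) ∈ K)
    (f : finFun X F) : (SemidirectProduct.inl f : Wr Q X F) ∈ K := by
  classical
  have key : ∀ (s : Finset X) (f : finFun X F), Function.mulSupport f.1 ⊆ (s : Set X) →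
      (SemidirectProduct.inl f : Wr Q X F) ∈ K := by
    intro s
    induction s using Finset.induction_on with
    | empty =>
      intro f hf
      have h1 : f = 1 := by
        ext x
        by_contra h
        exact absurd (hf (Function.mem_mulSupport.2 h)) (by simp)
      rw [h1, map_one]
      exact K.one_mem
    | insert x s hx ih =>
      intro f hf
      have h2 : (SemidirectProduct.inl ((lamp X F x (f.1 x))⁻¹ * f) : Wr Q X F) ∈ K := by
        refine ih _ fun y hy => ?_
        by_cases hyx : y = x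
        · subst hyx
          exfalso
          apply hy
          show ((lamp X F y (f.1 y)).1 y)⁻¹ * f.1 y = 1
          rw [WreathQI_lamp_apply_self, inv_mul_cancel]
        · have h3 : ((lamp X F x (f.1 x)).1 y)⁻¹ * f.1 y ≠ 1 := hy
          rw [WreathQI_lamp_apply_ne X F hyx, inv_one, one_mul] at h3
          have h4 := hf (Function.mem_mulSupport.2 h3)
          rcases Finset.mem_insert.1 (Finset.mem_coe.1 h4) with h5 | h5
          · exact absurd h5 hyx
          · exact h5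
      have h3 := K.mul_mem (hK x (f.1 x)) h2
      rwa [← map_mul, mul_inv_cancel_left] at h3
  have hfin : (Function.mulSupport f.1).Finite := f.2
  exact key hfin.toFinset f (by rw [Set.Finite.coe_toFinset])

/-- the generating set of the wreath product -/
theorem WreathQI_closure (Q F : Type) [Group Q] [Group F] (H : Subgroup Q) (S : Set Q)
    (hS : Subgroup.closure S = ⊤) :
    Subgroup.closure ((Set.range fun a : F =>
      (SemidirectProduct.inl (lamp (Q ⧸ H) F ((1 : Q) : Q ⧸ H) a) : Wr Q (Q ⧸ H) F)) ∪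
        (fun q => (SemidirectProduct.inr q : Wr Q (Q ⧸ H) F)) '' S) = ⊤ := by
  set K := Subgroup.closure ((Set.range fun a : F =>
      (SemidirectProduct.inl (lamp (Q ⧸ H) F ((1 : Q) : Q ⧸ H) a) : Wr Q (Q ⧸ H) F)) ∪
        (fun q => (SemidirectProduct.inr q : Wr Q (Q ⧸ H) F)) '' S) with hKdef
  have hr : ∀ q : Q, (SemidirectProduct.inr q : Wr Q (Q ⧸ H) F) ∈ K := by
    have h1 : (⊤ : Subgroup Q) ≤ K.comap (SemidirectProduct.inr : Q →* Wr Q (Q ⧸ H) F) := by
      rw [← hS, Subgroup.closure_le]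
      intro q hq
      exact Subgroup.subset_closure (Or.inr ⟨q, hq, rfl⟩)
    intro q
    exact h1 (Subgroup.mem_top q)
  have hl : ∀ (x : Q ⧸ H) (a : F),
      (SemidirectProduct.inl (lamp (Q ⧸ H) F x a) : Wr Q (Q ⧸ H) F) ∈ K := by
    intro x a
    obtain ⟨q, rfl⟩ := QuotientGroup.mk_surjective x
    have h1 : lamp (Q ⧸ H) F ((q : Q) : Q ⧸ H) a =
        permAct Q (Q ⧸ H) F q (lamp (Q ⧸ H) F ((1 : Q) : Q ⧸ H) a) := by
      rw [WreathQI_permAct_lamp]
      congr 2
      show ((q : Q) : Q ⧸ H) = ((q • (1 : Q) : Q) : Q ⧸ H)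
      rw [smul_eq_mul, mul_one]
    rw [h1, SemidirectProduct.inl_aut]
    exact K.mul_mem (K.mul_mem (hr q) (Subgroup.subset_closure (Or.inl ⟨a, rfl⟩))) (hr q⁻¹)
  rw [eq_top_iff]
  intro g _
  rw [← SemidirectProduct.inl_left_mul_inr_right g]
  exact K.mul_mem (WreathQI_inl_mem Q (Q ⧸ H) F K hl _) (hr _)

/-- the change of lamps -/
def WreathQI_map (Q X F F' : Type) [Group Q] [MulAction Q X] [Group F] [Group F'] (β : F ≃ F')
    (hβ : β 1 = 1) (g : Wr Q X F) : Wr Q X F' :=
  ⟨⟨fun x => β (g.left.1 x), by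
    refine Set.Finite.subset g.left.2 fun x hx h => hx ?_
    show β (g.left.1 x) = 1
    rw [h, hβ]⟩, g.right⟩

theorem WreathQI_step (Q X F F' : Type) [Group Q] [MulAction Q X] [Group F] [Group F']
    (β : F ≃ F') (hβ : β 1 = 1) (x₀ : X) (S : Set Q) (a b : Wr Q X F)
    (h : ∃ s ∈ ((Set.range fun c : F => (SemidirectProduct.inl (lamp X F x₀ c) : Wr Q X F)) ∪
        (fun q => (SemidirectProduct.inr q : Wr Q X F)) '' S), b = a * s) :
    ∃ t ∈ ((Set.range fun c : F' => (SemidirectProduct.inl (lamp X F' x₀ c) : Wr Q X F')) ∪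
        (fun q => (SemidirectProduct.inr q : Wr Q X F')) '' S),
      WreathQI_map Q X F F' β hβ b = WreathQI_map Q X F F' β hβ a * t := by
  obtain ⟨s, hs, rfl⟩ := h
  rcases hs with ⟨c, rfl⟩ | ⟨q, hq, rfl⟩
  · refine ⟨_, Or.inl ⟨(β (a.left.1 (a.right • x₀)))⁻¹ * β (a.left.1 (a.right • x₀) * c), rfl⟩, ?_⟩
    refine SemidirectProduct.ext ?_ ?_
    · ext x
      show β (a.left.1 x * (permAct Q X F a.right (lamp X F x₀ c)).1 x) =
        β (a.left.1 x) * (permAct Q X F' a.right (lamp X F' x₀ _)).1 x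
      rw [WreathQI_permAct_lamp, WreathQI_permAct_lamp]
      by_cases hx : x = a.right • x₀
      · subst hx
        rw [WreathQI_lamp_apply_self, WreathQI_lamp_apply_self, mul_inv_cancel_left]
      · rw [WreathQI_lamp_apply_ne X F hx, WreathQI_lamp_apply_ne X F' hx, mul_one, mul_one]
    · show a.right * 1 = a.right * 1
      rfl
  · refine ⟨_, Or.inr ⟨q, hq, rfl⟩, ?_⟩
    refine SemidirectProduct.ext ?_ ?_
    · ext x
      show β (a.left.1 x * (permAct Q X F a.right 1).1 x) =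
        β (a.left.1 x) * (permAct Q X F' a.right 1).1 x
      rw [map_one, map_one]
      show β (a.left.1 x * 1) = β (a.left.1 x) * 1
      rw [mul_one, mul_one]
    · rfl

theorem WreathQI_equiv (F F' : Type) [Group F] [Group F'] [Finite F] [Finite F']
    (hc : Nat.card F = Nat.card F') : ∃ β : F ≃ F', β 1 = 1 := by
  classical
  haveI := Fintype.ofFinite F
  haveI := Fintype.ofFinite F'
  have β₀ : F ≃ F' := Fintype.equivOfCardEq (by rw [← Nat.card_eq_fintype_card, hc,
    Nat.card_eq_fintype_card])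
  exact ⟨β₀.trans (Equiv.swap (β₀ 1) 1), by simp⟩

/-- `Φ (f, q) = (β ∘ f, q)` for a bijection `β : F ≃ F'` with `β 1 = 1`; `S` = the lamps at the base
point together with a finite generating set of `Q`. -/
theorem cayleyIso_wr (Q F F' : Type) [Group Q] [Group F] [Group F'] [Finite F] [Finite F']
    (hc : Nat.card F = Nat.card F') (H : Subgroup Q) (hQ : Group.FG Q) :
    CayleyIso (Wr Q (Q ⧸ H) F) (Wr Q (Q ⧸ H) F') := by
  classical
  obtain ⟨β, hβ⟩ := WreathQI_equiv F F' hc
  have hβ' : β.symm 1 = 1 := by rw [← hβ, Equiv.symm_apply_apply]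
  obtain ⟨S, hS⟩ := Group.FG.out (G := Q)
  let x₀ : Q ⧸ H := ((1 : Q) : Q ⧸ H)
  let G1 : Set (Wr Q (Q ⧸ H) F) := (Set.range fun c : F =>
      (SemidirectProduct.inl (lamp (Q ⧸ H) F x₀ c) : Wr Q (Q ⧸ H) F)) ∪
        (fun q => (SemidirectProduct.inr q : Wr Q (Q ⧸ H) F)) '' (S : Set Q)
  let G2 : Set (Wr Q (Q ⧸ H) F') := (Set.range fun c : F' =>
      (SemidirectProduct.inl (lamp (Q ⧸ H) F' x₀ c) : Wr Q (Q ⧸ H) F')) ∪
        (fun q => (SemidirectProduct.inr q : Wr Q (Q ⧸ H) F')) '' (S : Set Q)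
  have f1 : G1.Finite := (Set.finite_range _).union (S.finite_toSet.image _)
  have f2 : G2.Finite := (Set.finite_range _).union (S.finite_toSet.image _)
  let Φ : Wr Q (Q ⧸ H) F ≃ Wr Q (Q ⧸ H) F' :=
    { toFun := WreathQI_map Q (Q ⧸ H) F F' β hβ
      invFun := WreathQI_map Q (Q ⧸ H) F' F β.symm hβ'
      left_inv := fun g => by
        refine SemidirectProduct.ext ?_ rfl
        ext x
        show β.symm (β (g.left.1 x)) = g.left.1 x
        simp
      right_inv := fun g => by
        refine SemidirectProduct.ext ?_ rfl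
        ext x
        show β (β.symm (g.left.1 x)) = g.left.1 x
        simp }
  refine ⟨f1.toFinset, f2.toFinset, ?_, ?_, Φ, fun a b => ⟨fun h => ?_, fun h => ?_⟩⟩
  · rw [Set.Finite.coe_toFinset]
    exact WreathQI_closure Q F H S hS
  · rw [Set.Finite.coe_toFinset]
    exact WreathQI_closure Q F' H S hS
  · obtain ⟨s, hs, hb⟩ := h
    obtain ⟨t, ht, h2⟩ := WreathQI_step Q (Q ⧸ H) F F' β hβ x₀ S a b
      ⟨s, (Set.Finite.mem_toFinset f1).1 hs, hb⟩
    exact ⟨t, (Set.Finite.mem_toFinset f2).2 ht, h2⟩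
  · obtain ⟨t, ht, hb⟩ := h
    obtain ⟨s, hs, h2⟩ := WreathQI_step Q (Q ⧸ H) F' F β.symm hβ' x₀ S (Φ a) (Φ b)
      ⟨t, (Set.Finite.mem_toFinset f2).1 ht, hb⟩
    refine ⟨s, (Set.Finite.mem_toFinset f1).2 hs, ?_⟩
    have e1 : WreathQI_map Q (Q ⧸ H) F' F β.symm hβ' (Φ b) = b := Φ.symm_apply_apply b
    have e2 : WreathQI_map Q (Q ⧸ H) F' F β.symm hβ' (Φ a) = a := Φ.symm_apply_apply a
    rw [e1, e2] at h2
    exact h2

end Pool.Agent.WBec814
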