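import Pool.Agent.W_bec814_h13.Wreath

set_option autoImplicit false

namespace Pool.Agent.WBec814

theorem WreathSol_finFun (X F : Type) [Group F] (hF : Group.IsSolvable F) :
    Group.IsSolvable (finFun X F) := by
  obtain ⟨n, hn⟩ := hF.solvable
  refine ⟨⟨n, ?_⟩⟩
  rw [eq_bot_iff]
  intro g hg
  rw [Subgroup.mem_bot]
  ext x
  have h1 : ((Pi.evalMonoidHom (fun _ : X => F) x).comp (finFun X F).subtype) g ∈
      (derivedSeries (finFun X F) n).map
        ((Pi.evalMonoidHom (fun _ : X => F) x).comp (finFun X F).subtype) :=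
    Subgroup.mem_map_of_mem _ hg
  have h2 := map_derivedSeries_le_derivedSeries
    ((Pi.evalMonoidHom (fun _ : X => F) x).comp (finFun X F).subtype) n h1
  rw [hn, Subgroup.mem_bot] at h2
  exact h2

theorem isSolvable_wr (Q X F : Type) [Group Q] [MulAction Q X] [Group F] (hQ : Group.IsSolvable Q)
    (hF : Group.IsSolvable F) : Group.IsSolvable (Wr Q X F) := by
  haveI := WreathSol_finFun X F hF
  exact Group.isSolvable_of_ker_le_range (SemidirectProduct.inl : finFun X F →* Wr Q X F)
    (SemidirectProduct.rightHom : Wr Q X F →* Q) (by rw [SemidirectProduct.range_inl_eq_ker_rightHom])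

theorem WreathSol_A5 : ¬ Group.IsSolvable (alternatingGroup (Fin 5)) := by
  intro h
  haveI := h
  apply Equiv.Perm.not_isSolvable_fin_5
  refine Group.isSolvable_of_ker_le_range (alternatingGroup (Fin 5)).subtype
    (Equiv.Perm.sign : Equiv.Perm (Fin 5) →* ℤˣ) ?_
  intro g hg
  exact ⟨⟨g, hg⟩, rfl⟩

theorem WreathSol_noncomm (g : alternatingGroup (Fin 5)) (hg : g ≠ 1) :
    ∃ a : alternatingGroup (Fin 5), g * a ≠ a * g := by
  haveI : IsSimpleGroup (alternatingGroup (Fin 5)) := alternatingGroup.isSimpleGroup_five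
  by_contra hcon
  push Not at hcon
  have hgc : g ∈ Subgroup.center (alternatingGroup (Fin 5)) :=
    Subgroup.mem_center_iff.2 fun a => (hcon a).symm
  rcases (inferInstance : (Subgroup.center (alternatingGroup (Fin 5))).Normal).eq_bot_or_eq_top
    with h | h
  · rw [h, Subgroup.mem_bot] at hgc
    exact hg hgc
  · refine WreathSol_A5 (IsSimpleGroup.comm_iff_isSolvable.1 fun a b => ?_)
    have ha : b ∈ Subgroup.center (alternatingGroup (Fin 5)) := by
      rw [h]
      exact Subgroup.mem_top b
    exact Subgroup.mem_center_iff.1 ha a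

theorem WreathSol_lamp_inj (X F : Type) [Group F] (x : X) :
    Function.Injective (lamp X F x) := by
  intro a b h
  have h1 : (lamp X F x a).1 x = (lamp X F x b).1 x := by rw [h]
  simpa [lamp] using h1

theorem WreathSol_infinite (X : Type) [Infinite X] :
    Infinite (finFun X (alternatingGroup (Fin 5))) := by
  haveI : Nontrivial (alternatingGroup (Fin 5)) := by
    haveI : IsSimpleGroup (alternatingGroup (Fin 5)) := alternatingGroup.isSimpleGroup_five
    infer_instance
  obtain ⟨a, ha⟩ := exists_ne (1 : alternatingGroup (Fin 5))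
  refine Infinite.of_injective (fun x : X => lamp X (alternatingGroup (Fin 5)) x a) ?_
  intro x y h
  by_contra hxy
  have h1 : (lamp X (alternatingGroup (Fin 5)) x a).1 x =
    (lamp X (alternatingGroup (Fin 5)) y a).1 x := congrArg (fun f => f.1 x) h
  apply ha
  simpa [lamp, hxy] using h1

/-- `A₅ ≀_X Q` is not virtually soluble if `X` is infinite. Let `L₀` be the normal core of `L`
(finite index) and `B = inl (finFun X A₅)`, an infinite group. `L₀ ∩ B ≠ 1`; take `f ≠ 1` in it,
`f x ≠ 1`. For `a ∈ A₅` not commuting with `f x` the commutator `[f, lamp x a]` is a nontrivial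
element `lamp x c` of `L₀`; the preimage of `L₀` under `lamp x` is a nontrivial normal subgroup of
`A₅`, so everything (`A₅` is simple: `alternatingGroup.isSimpleGroup_five`). Hence `A₅` embeds
in `L`, and `A₅` is not soluble. -/
theorem not_isSolvable_wr (Q X : Type) [Group Q] [MulAction Q X] [Infinite X]
    (L : Subgroup (Wr Q X (alternatingGroup (Fin 5)))) (hL : L.FiniteIndex) : ¬ Group.IsSolvable L := by
  classical
  intro hsol
  haveI : IsSimpleGroup (alternatingGroup (Fin 5)) := alternatingGroup.isSimpleGroup_five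
  haveI := hL
  haveI hinf := WreathSol_infinite X
  haveI : Finite (Wr Q X (alternatingGroup (Fin 5)) ⧸ L.normalCore) :=
    Subgroup.finite_quotient_of_finiteIndex
  obtain ⟨f, f', hne, heq⟩ := Finite.exists_ne_map_eq_of_infinite
    (fun f : finFun X (alternatingGroup (Fin 5)) =>
      ((SemidirectProduct.inl f : Wr Q X (alternatingGroup (Fin 5))) :
        Wr Q X (alternatingGroup (Fin 5)) ⧸ L.normalCore))
  have h1 : (SemidirectProduct.inl (f⁻¹ * f') : Wr Q X (alternatingGroup (Fin 5))) ∈
      L.normalCore := by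
    rw [map_mul, map_inv]
    exact QuotientGroup.eq.1 heq
  have h2 : f⁻¹ * f' ≠ 1 := by
    intro h
    exact hne (inv_mul_eq_one.1 h)
  obtain ⟨x, hx⟩ : ∃ x, (f⁻¹ * f').1 x ≠ 1 := by
    by_contra hcon
    push Not at hcon
    apply h2
    ext y
    rw [hcon y]
    rfl
  obtain ⟨a, ha⟩ := WreathSol_noncomm _ hx
  set g := f⁻¹ * f' with hg
  let φ : alternatingGroup (Fin 5) →* Wr Q X (alternatingGroup (Fin 5)) :=
    SemidirectProduct.inl.comp (lamp X (alternatingGroup (Fin 5)) x)
  have hφ : Function.Injective φ :=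
    SemidirectProduct.inl_injective.comp (WreathSol_lamp_inj X _ x)
  haveI : (L.normalCore).Normal := Subgroup.normalCore_normal L
  have h3 : φ (g.1 x * a * (g.1 x)⁻¹ * a⁻¹) ∈ L.normalCore := by
    have e : φ (g.1 x * a * (g.1 x)⁻¹ * a⁻¹) =
        (SemidirectProduct.inl g : Wr Q X (alternatingGroup (Fin 5))) *
          ((φ a) * (SemidirectProduct.inl g : Wr Q X (alternatingGroup (Fin 5)))⁻¹ * (φ a)⁻¹) := by
      show (SemidirectProduct.inl (lamp X (alternatingGroup (Fin 5)) x
        (g.1 x * a * (g.1 x)⁻¹ * a⁻¹)) : Wr Q X (alternatingGroup (Fin 5))) =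
        SemidirectProduct.inl g * (SemidirectProduct.inl (lamp X (alternatingGroup (Fin 5)) x a) *
          (SemidirectProduct.inl g)⁻¹ * (SemidirectProduct.inl
            (lamp X (alternatingGroup (Fin 5)) x a))⁻¹)
      rw [← map_inv, ← map_inv, ← map_mul, ← map_mul, ← map_mul]
      congr 1
      refine Subtype.ext (funext fun y => ?_)
      by_cases hy : y = x
      · subst hy
        have e1 : ∀ c : alternatingGroup (Fin 5),
            (lamp X (alternatingGroup (Fin 5)) y c).1 y = c := by
          intro c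
          simp [lamp]
        show (lamp X (alternatingGroup (Fin 5)) y (g.1 y * a * (g.1 y)⁻¹ * a⁻¹)).1 y =
          g.1 y * ((lamp X (alternatingGroup (Fin 5)) y a).1 y * (g.1 y)⁻¹ *
            ((lamp X (alternatingGroup (Fin 5)) y a).1 y)⁻¹)
        rw [e1, e1]
        group
      · have e1 : ∀ c : alternatingGroup (Fin 5),
            (lamp X (alternatingGroup (Fin 5)) x c).1 y = 1 := by
          intro c
          simp [lamp, hy]
        show (lamp X (alternatingGroup (Fin 5)) x (g.1 x * a * (g.1 x)⁻¹ * a⁻¹)).1 y =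
          g.1 y * ((lamp X (alternatingGroup (Fin 5)) x a).1 y * (g.1 y)⁻¹ *
            ((lamp X (alternatingGroup (Fin 5)) x a).1 y)⁻¹)
        rw [e1, e1]
        group
    rw [e]
    exact (L.normalCore).mul_mem h1
      (this.conj_mem _ ((L.normalCore).inv_mem h1) _)
  have h4 : L.normalCore.comap φ = ⊤ := by
    haveI hn : (L.normalCore.comap φ).Normal := Subgroup.Normal.comap this φ
    rcases hn.eq_bot_or_eq_top with h | h
    · exfalso
      have h5 : g.1 x * a * (g.1 x)⁻¹ * a⁻¹ ∈ L.normalCore.comap φ := h3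
      rw [h, Subgroup.mem_bot] at h5
      apply ha
      have h6 : g.1 x * a * (g.1 x)⁻¹ = a := by
        rw [mul_inv_eq_one] at h5
        exact h5
      calc g.1 x * a = (g.1 x * a * (g.1 x)⁻¹) * g.1 x := by group
        _ = a * g.1 x := by rw [h6]
    · exact h
  have h5 : ∀ c, φ c ∈ L := by
    intro c
    have h6 : c ∈ L.normalCore.comap φ := by
      rw [h4]
      exact Subgroup.mem_top c
    exact Subgroup.normalCore_le L h6
  haveI := hsol
  exact WreathSol_A5 (Group.isSolvable_of_isSolvable_injective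
    (f := φ.codRestrict L h5) (fun c d hcd => hφ (congrArg Subtype.val hcd)))

end Pool.Agent.WBec814
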