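import Pool.Agent.W_bec814_h13.Nonvan

set_option autoImplicit false

namespace Pool.Agent.WBec814

open MvPolynomial

theorem exists_act (D : Data) (F : M → ℤ → K) (hF : Spec D F) :
    ∃ act : N → (K →+* K), ∀ n v, act n (Y v) = wact F n v := by
  refine ⟨fun n => IsFractionRing.lift (g := (aeval (wact F n) : P →ₐ[ZMod 2] K).toRingHom)
    (wact_injective D F hF n), fun n v => ?_⟩
  unfold Y
  rw [IsFractionRing.lift_algebraMap]
  exact aeval_X _ _

theorem act_zero (F : M → ℤ → K) (act : N → (K →+* K))
    (hact : ∀ n v, act n (Y v) = wact F n v) (y : K) : act 0 y = y := by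
  have h : act 0 = RingHom.id K := ringHom_ext' _ _ fun v => by
    rw [hact, RingHom.id_apply]
    unfold wact
    rw [sh_zero, zer_zero, add_zero, Finsupp.prod_zero_index, mul_one]
  rw [h, RingHom.id_apply]

/-- `g (n y) = (g n) (g y)`. Check on the variables: `sh_trN`, `zer_trN`, `τ_add`. -/
theorem τ_act (F : M → ℤ → K) (act : N → (K →+* K))
    (hact : ∀ n v, act n (Y v) = wact F n v) (g : G) (n : N) (y : K) :
    τ g (act n y) = act (trN g n) (τ g y) := by
  have h : (τ g).toRingHom.comp (act n) = (act (trN g n)).comp (τ g).toRingHom :=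
    ringHom_ext' _ _ fun v => by
      show τ g (act n (Y v)) = act (trN g n) (τ g (Y v))
      rw [hact, τ_Y, hact]
      unfold wact
      rw [map_mul, τ_Y]
      show _ = Y (g + v.1, v.2 + sh (g + v.1) (trN g n)) *
        (zer (g + v.1) (trN g n)).prod
          (fun c k => (τ (g + v.1) (F (v.2 + sh (g + v.1) (trN g n)) c)) ^ k)
      rw [sh_trN, zer_trN]
      congr 1
      unfold Finsupp.prod
      rw [map_prod]
      refine Finset.prod_congr rfl fun c _ => ?_
      rw [map_zpow₀, ← τ_add]
  exact congrArg (fun f : K →+* K => f y) h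

/-- On `Klt 0` only the negative part of `n` matters: `eqOn_Klt`, `sh_emb_sh`, `zer_emb_sh`. -/
theorem act_neg (F : M → ℤ → K) (act : N → (K →+* K))
    (hact : ∀ n v, act n (Y v) = wact F n v) (n : N) (y : K) (hy : y ∈ Klt 0) :
    act n y = act (emb (sh 0 n)) y := by
  refine eqOn_Klt _ _ 0 (fun v hv => ?_) y hy
  rw [hact, hact]
  unfold wact
  rw [sh_emb_sh _ _ hv, zer_emb_sh _ _ hv]

end Pool.Agent.WBec814
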