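import Pool.Agent.W_bec814_h13.ActB

set_option autoImplicit false

namespace Pool.Agent.WBec814

open MvPolynomial

theorem ActC_trN (g : G) (n : N) : trN g (trN (-g) n) = n := by
  ext h
  rw [trN_apply, trN_apply]
  congr 1
  abel

theorem ActC_off (D : Data) (F : M → ℤ → K) (hF : Spec D F) (act : N → (K →+* K))
    (p m : M) (c : ℤ) (hc : ∀ r, D.pos r ≠ c) :
    act (emb p) (F m c) = F (p + m) c := by
  rw [hF.off m c hc, hF.off (p + m) c hc, map_one]

theorem ActC_on (D : Data) (F : M → ℤ → K) (hF : Spec D F) (act : N → (K →+* K))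
    (hact : ∀ n v, act n (Y v) = wact F n v) (x : Multiset ℕ) :
    ∀ (m : M) (r : ℕ), D.μ m r = x → ∀ p : M,
      act (emb p) (F m (D.pos r)) = F (p + m) (D.pos r) := by
  have hwf : WellFounded (Multiset.IsDershowitzMannaLT (α := ℕ)) :=
    Multiset.wellFounded_isDershowitzMannaLT
  induction x using hwf.induction with
  | _ x ih =>
    intro m r hx p
    rw [hF.on, hF.on, map_aeval']
    refine aeval_congr' _ _ _ fun v hv => ?_
    have key : ∀ c ∈ (zer v.1 (emb m)).support,
        act (emb p) (τ v.1 (F (v.2 + sh v.1 (emb m)) c)) =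
          τ v.1 (F (v.2 + sh v.1 (emb (p + m))) c) := by
      intro c hc
      have h1 : act (emb p) (τ v.1 (F (v.2 + sh v.1 (emb m)) c)) =
          τ v.1 (act (emb (sh v.1 (emb p))) (F (v.2 + sh v.1 (emb m)) c)) := by
        conv_lhs => rw [← ActC_trN v.1 (emb p)]
        rw [← τ_act F act hact, act_neg F act hact _ _ (nonvan D F hF _ c).2]
        have h2 := sh_trN (-v.1) v.1 (emb p)
        rw [neg_add_cancel] at h2
        rw [h2]
      have h3 : act (emb (sh v.1 (emb p))) (F (v.2 + sh v.1 (emb m)) c) =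
          F (sh v.1 (emb p) + (v.2 + sh v.1 (emb m))) c := by
        by_cases hpos : ∃ s, D.pos s = c
        · obtain ⟨s, rfl⟩ := hpos
          exact ih _ (hx ▸ D.decrease m r v hv s (Finsupp.mem_support_iff.1 hc)) _ s rfl _
        · exact ActC_off D F hF act _ _ c fun s hs => hpos ⟨s, hs⟩
      rw [h1, h3, emb_add, sh_add]
      congr 2
      abel
    have hne : ∀ c, τ v.1 (F (v.2 + sh v.1 (emb (p + m))) c) ≠ 0 := fun c =>
      (map_ne_zero_iff _ (τ v.1).injective).2 (nonvan D F hF _ c).1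
    have h4 : v.2 + sh v.1 (emb m) + sh v.1 (emb p) = v.2 + sh v.1 (emb (p + m)) := by
      rw [emb_add, sh_add]
      abel
    have h5 : act (emb p) ((zer v.1 (emb m)).prod
        (fun c k => (τ v.1 (F (v.2 + sh v.1 (emb m)) c)) ^ k)) =
        (zer v.1 (emb m)).prod (fun c k => (τ v.1 (F (v.2 + sh v.1 (emb (p + m))) c)) ^ k) := by
      rw [Finsupp.prod, Finsupp.prod, map_prod]
      refine Finset.prod_congr rfl fun c hc => ?_
      rw [map_zpow₀, key c hc]
    have h6 : wact F (emb m) v = Y (v.1, v.2 + sh v.1 (emb m)) *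
      (zer v.1 (emb m)).prod (fun c k => (τ v.1 (F (v.2 + sh v.1 (emb m)) c)) ^ k) := rfl
    have h7 : wact F (emb p) (v.1, v.2 + sh v.1 (emb m)) =
      Y (v.1, v.2 + sh v.1 (emb m) + sh v.1 (emb p)) *
      (zer v.1 (emb p)).prod
        (fun c k => (τ v.1 (F (v.2 + sh v.1 (emb m) + sh v.1 (emb p)) c)) ^ k) := rfl
    have h8 : wact F (emb (p + m)) v = Y (v.1, v.2 + sh v.1 (emb (p + m))) *
      (zer v.1 (emb (p + m))).prod
        (fun c k => (τ v.1 (F (v.2 + sh v.1 (emb (p + m))) c)) ^ k) := rfl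
    rw [h6, map_mul, h5, hact, h7, h4, h8, emb_add p m, zer_add, ← emb_add p m,
      Finsupp.prod_add_index' (fun c => zpow_zero _) (fun c a b => zpow_add₀ (hne c) a b), mul_assoc]

/-- The cocycle identity. By well-founded induction on `μ m r`, for all `p`:
`act (emb p) (F m (pos r)) = aeval (fun v => act (emb p) (wact F (emb m) v)) (R r)` and for
`v = (g, m1) ∈ vars (R r)`
`act (emb p) (wact F (emb m) v) = wact F (emb p) (g, m1 + sh g (emb m)) *
  ∏ (act (emb p) (τ g (F (m1 + sh g (emb m)) c))) ^ k`, where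
`act (emb p) (τ g y) = τ g (act (trN (-g) (emb p)) y) = τ g (act (emb (sh g (emb p))) y)` for
`y ∈ Klt 0` (`τ_act`, `act_neg`, `sh_trN`), and the induction hypothesis gives
`act (emb (sh g (emb p))) (F (m1 + sh g (emb m)) c) = F (sh g (emb p) + (m1 + sh g (emb m))) c` for
all `c` in the support of `zer g (emb m)`. The result is `wact F (emb (p + m)) v`. -/
theorem act_F (D : Data) (F : M → ℤ → K) (hF : Spec D F) (act : N → (K →+* K))
    (hact : ∀ n v, act n (Y v) = wact F n v) (p m : M) (c : ℤ) :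
    act (emb p) (F m c) = F (p + m) c := by
  by_cases hpos : ∃ s, D.pos s = c
  · obtain ⟨s, rfl⟩ := hpos
    exact ActC_on D F hF act hact _ m s rfl p
  · exact ActC_off D F hF act _ _ c fun s hs => hpos ⟨s, hs⟩

end Pool.Agent.WBec814
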