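import Pool.Agent.W_bec814_h13.ActC

set_option autoImplicit false

namespace Pool.Agent.WBec814

open MvPolynomial

theorem ActD_trN_neg (g : G) (n : N) : trN g (trN (-g) n) = n := by
  ext h
  rw [trN_apply, trN_apply, sub_neg_eq_add, sub_add_cancel]

theorem ActD_sh (g : G) (n : N) : sh 0 (trN (-g) n) = sh g n := by
  have h1 := sh_trN (-g) g n
  rwa [neg_add_cancel] at h1

theorem ActD_act_τ (D : Data) (F : M → ℤ → K) (hF : Spec D F) (act : N → (K →+* K))
    (hact : ∀ n v, act n (Y v) = wact F n v) (g : G) (n : N) (m : M) (c : ℤ) :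
    act n (τ g (F m c)) = τ g (F (sh g n + m) c) := by
  have h1 := τ_act F act hact g (trN (-g) n) (F m c)
  rw [ActD_trN_neg] at h1
  rw [← h1, act_neg F act hact _ _ (nonvan D F hF m c).2, ActD_sh, act_F D F hF act hact]

/-- `act` is a homomorphism; same computation as in `act_F`, which is now available for all
`F m c`. -/
theorem act_add (D : Data) (F : M → ℤ → K) (hF : Spec D F) (act : N → (K →+* K))
    (hact : ∀ n v, act n (Y v) = wact F n v) (n n' : N) (y : K) :
    act (n + n') y = act n (act n' y) := by
  have h1 : ∀ y, act (n + n') y = ((act n).comp (act n')) y := by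
    intro y
    refine congrFun (congrArg DFunLike.coe (ringHom_ext' (act (n + n')) ((act n).comp (act n'))
      fun v => ?_)) y
    rw [RingHom.comp_apply, hact, hact]
    unfold wact
    rw [map_mul, hact]
    unfold wact
    have h2 : (act n) ((zer v.1 n').prod fun c k => τ v.1 (F (v.2 + sh v.1 n') c) ^ k) =
        (zer v.1 n').prod fun c k => τ v.1 (F (v.2 + sh v.1 n' + sh v.1 n) c) ^ k := by
      rw [map_finsuppProd]
      refine Finsupp.prod_congr fun c _ => ?_
      rw [map_zpow₀, ActD_act_τ D F hF act hact, add_comm (sh v.1 n)]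
    rw [h2]
    have h3 : v.2 + sh v.1 (n + n') = v.2 + sh v.1 n' + sh v.1 n := by
      rw [sh_add]
      abel
    rw [h3, zer_add]
    have h4 : ((zer v.1 n + zer v.1 n').prod fun c k =>
        τ v.1 (F (v.2 + sh v.1 n' + sh v.1 n) c) ^ k) =
        ((zer v.1 n).prod fun c k => τ v.1 (F (v.2 + sh v.1 n' + sh v.1 n) c) ^ k) *
        ((zer v.1 n').prod fun c k => τ v.1 (F (v.2 + sh v.1 n' + sh v.1 n) c) ^ k) := by
      refine Finsupp.prod_add_index' (fun c => zpow_zero _) (fun c k k' => zpow_add₀ ?_ k k')
      exact (map_ne_zero (τ v.1)).2 (nonvan D F hF _ _).1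
    rw [h4, mul_assoc]
  exact h1 y

/-- `act n` as automorphisms, the homomorphism `N → Aut K` -/
theorem exists_hom : ∃ (D : Data) (F : M → ℤ → K) (φ : Multiplicative N →* RingAut K)
    (ψ : Multiplicative G →* RingAut K),
    Spec D F ∧ (∀ n v, φ (Multiplicative.ofAdd n) (Y v) = wact F n v) ∧
    (∀ g y, ψ (Multiplicative.ofAdd g) y = τ g y) ∧
    (∀ g n, ψ (Multiplicative.ofAdd g) * φ (Multiplicative.ofAdd n) *
      (ψ (Multiplicative.ofAdd g))⁻¹ = φ (Multiplicative.ofAdd (trN g n))) := by
  obtain ⟨D⟩ := exists_data
  obtain ⟨F, hF⟩ := exists_spec D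
  obtain ⟨act, hact⟩ := exists_act D F hF
  have hadd := act_add D F hF act hact
  have hzero := act_zero F act hact
  let φ : Multiplicative N →* RingAut K :=
    { toFun := fun n =>
        { toFun := act (Multiplicative.toAdd n)
          invFun := act (-Multiplicative.toAdd n)
          left_inv := fun y => by rw [← hadd, neg_add_cancel, hzero]
          right_inv := fun y => by rw [← hadd, add_neg_cancel, hzero]
          map_mul' := fun x y => map_mul _ x y
          map_add' := fun x y => map_add _ x y }
      map_one' := by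
        refine RingEquiv.ext fun y => ?_
        exact hzero y
      map_mul' := fun n n' => by
        refine RingEquiv.ext fun y => ?_
        exact hadd _ _ y }
  let ψ : Multiplicative G →* RingAut K :=
    { toFun := fun g => τ (Multiplicative.toAdd g)
      map_one' := by
        refine RingEquiv.ext fun y => ?_
        exact τ_zero y
      map_mul' := fun g g' => by
        refine RingEquiv.ext fun y => ?_
        exact τ_add _ _ y }
  refine ⟨D, F, φ, ψ, hF, fun n v => hact n v, fun g y => rfl, fun g n => ?_⟩
  rw [mul_inv_eq_iff_eq_mul]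
  refine RingEquiv.ext fun y => ?_
  exact τ_act F act hact g n y

end Pool.Agent.WBec814
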