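import Mathlib

/-! From a field `K`, a group `A` of automorphisms and `x` with `Kˣ = ⟨A x⟩` to a soluble
2-transitive group. -/

set_option autoImplicit false

namespace Pool.Agent.WBec814

/-- the permutations `y ↦ u * a y + t` of `K`, `u ≠ 0`, `a ∈ A` -/
def affGroup {K : Type} [Field K] (A : Subgroup (RingAut K)) : Subgroup (Equiv.Perm K) where
  carrier := {e | ∃ u : K, u ≠ 0 ∧ ∃ a ∈ A, ∃ t : K, ∀ y, e y = u * a y + t}
  mul_mem' := by
    rintro e e' ⟨u, hu, a, ha, t, h⟩ ⟨u', hu', a', ha', t', h'⟩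
    refine ⟨u * a u', mul_ne_zero hu ?_, a * a', A.mul_mem ha ha', u * a t' + t, fun y => ?_⟩
    · simpa using hu'
    · rw [Equiv.Perm.mul_apply, h', h, map_add, map_mul, RingAut.mul_apply]
      ring
  one_mem' := ⟨1, one_ne_zero, 1, A.one_mem, 0, fun y => by simp⟩
  inv_mem' := by
    rintro e ⟨u, hu, a, ha, t, h⟩
    refine ⟨a⁻¹ u⁻¹, ?_, a⁻¹, A.inv_mem ha, - (a⁻¹ (u⁻¹ * t)), fun y => ?_⟩
    · simpa using hu
    · rw [Equiv.Perm.inv_eq_iff_eq, h]
      have h1 : ∀ z, a (a⁻¹ z) = z := fun z => by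
        rw [← RingAut.mul_apply, mul_inv_cancel, RingAut.one_apply]
      rw [map_add, map_neg, map_mul, h1, h1, h1]
      field_simp
      ring

/-- the stabiliser of `0` -/
def affStab {K : Type} [Field K] (A : Subgroup (RingAut K)) : Subgroup (affGroup A) where
  carrier := {e | e.1 0 = 0}
  mul_mem' := by
    intro e e' (h : e.1 0 = 0) (h' : e'.1 0 = 0)
    show (e * e').1 0 = 0
    simp [h, h']
  one_mem' := by
    show (1 : affGroup A).1 0 = 0
    simp
  inv_mem' := by
    intro e (h : e.1 0 = 0)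
    show (e⁻¹).1 0 = 0
    simp only [Subgroup.coe_inv]
    rw [Equiv.Perm.inv_eq_iff_eq, h]

end Pool.Agent.WBec814
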