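import Mathlib

/-!
# The variables, the field `K`, shifts, and the shape of the action

`V = (ℤ × ℤ) × ((ℕ × ℤ) →₀ ℤ)`: the variable `Y (g, m)` has level `g.1`.
`K = F_2(Y v : v ∈ V)`.
-/

set_option autoImplicit false

namespace Pool.Agent.WBec814

open MvPolynomial

/-- index set of the negative levels: `(d,c)` is the position of level `-(d+1)`, coordinate `c` -/
abbrev M : Type := (ℕ × ℤ) →₀ ℤ
abbrev G : Type := ℤ × ℤ
abbrev V : Type := G × M
abbrev P : Type := MvPolynomial V (ZMod 2)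
abbrev K : Type := FractionRing P
abbrev N : Type := G →₀ ℤ

/-- the variables, as elements of `K` -/
noncomputable def Y (v : V) : K := algebraMap P K (X v)

/-- translation of the variables -/
def trV (g : G) : V ≃ V := (Equiv.addLeft g).prodCongr (Equiv.refl M)

/-- translation by `g` as automorphism of `K` -/
noncomputable def τ (g : G) : K ≃+* K :=
  IsFractionRing.ringEquivOfRingEquiv (renameEquiv (ZMod 2) (trV g)).toRingEquiv

/-- the subfield generated by the variables of level `< l` -/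
noncomputable def Klt (l : ℤ) : Subfield K := Subfield.closure {y | ∃ v : V, v.1.1 < l ∧ y = Y v}

lemma posN_injective (g : G) :
    Function.Injective (fun p : ℕ × ℤ => ((g.1 - ((p.1 : ℤ) + 1), g.2 + p.2) : G)) := by
  rintro ⟨a, b⟩ ⟨c, d⟩ h
  simp only [Prod.mk.injEq] at h
  ext <;> simp <;> omega

lemma posZ_injective (g : G) :
    Function.Injective (fun c : ℤ => ((g.1, g.2 + c) : G)) := by
  intro a b h
  simp only [Prod.mk.injEq] at h
  omega

/-- the negative-level part of `g⁻¹ n` -/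
noncomputable def sh (g : G) (n : N) : M :=
  n.comapDomain (fun p : ℕ × ℤ => ((g.1 - ((p.1 : ℤ) + 1), g.2 + p.2) : G))
    (posN_injective g).injOn

/-- the level-zero part of `g⁻¹ n` -/
noncomputable def zer (g : G) (n : N) : ℤ →₀ ℤ :=
  n.comapDomain (fun c : ℤ => ((g.1, g.2 + c) : G)) (posZ_injective g).injOn

/-- `m : M` as an element of `N` -/
noncomputable def emb (m : M) : N :=
  m.embDomain ⟨fun p : ℕ × ℤ => ((0 - ((p.1 : ℤ) + 1), 0 + p.2) : G), posN_injective 0⟩

/-- translation by `g` on `N` -/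
noncomputable def trN (g : G) (n : N) : N := n.mapDomain (fun h => g + h)

lemma sh_apply (g : G) (n : N) (p : ℕ × ℤ) : sh g n p = n (g.1 - ((p.1 : ℤ) + 1), g.2 + p.2) := rfl

lemma zer_apply (g : G) (n : N) (c : ℤ) : zer g n c = n (g.1, g.2 + c) := rfl

/-- the image of the variable `Y v` under `n : N`, where `F m c` stands for the image of the
label value `ψ c` under `m : M` -/
noncomputable def wact (F : M → ℤ → K) (n : N) (v : V) : K :=
  Y (v.1, v.2 + sh v.1 n) *
    (zer v.1 n).prod (fun c k => (τ v.1 (F (v.2 + sh v.1 n) c)) ^ k)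

/-- data: an enumeration of the nonzero polynomials in the variables of negative level -/
structure Data where
  R : ℕ → P
  ρ : ℕ → ℕ
  R_ne : ∀ r, R r ≠ 0
  R_neg : ∀ r, ∀ v ∈ (R r).vars, v.1.1 < 0
  R_surj : ∀ p : P, p ≠ 0 → (∀ v ∈ p.vars, v.1.1 < 0) → ∃ r, R r = p
  ρ_mono : Monotone ρ
  ρ_coord : ∀ r, ∀ v ∈ (R r).vars, v.1.2.natAbs ≤ ρ r
  ρ_supp : ∀ r, ∀ v ∈ (R r).vars, ∀ q ∈ v.2.support, q.2.natAbs ≤ ρ r ∧ q.1 + 1 ≤ ρ r

/-- the positions of the labels -/
def Data.pos (D : Data) (r : ℕ) : ℤ := ((r + D.ρ r + 2) * (D.ρ r + 2) : ℕ)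

/-- the recursion satisfied by `F m c = m · ψ c` -/
structure Spec (D : Data) (F : M → ℤ → K) : Prop where
  off : ∀ m c, (∀ r, D.pos r ≠ c) → F m c = 1
  on : ∀ m r, F m (D.pos r) = aeval (wact F (emb m)) (D.R r)

end Pool.Agent.WBec814
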