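import Pool.Agent.W_bec814_h13.Basic

set_option autoImplicit false

namespace Pool.Agent.WBec814

open MvPolynomial

/-- a bound for all the numbers occurring in a variable -/
private noncomputable def Enum_bv (v : V) : ℕ :=
  v.1.2.natAbs + ∑ q ∈ v.2.support, (q.2.natAbs + (q.1 + 1))

private lemma Enum_bv_coord (v : V) : v.1.2.natAbs ≤ Enum_bv v := Nat.le_add_right _ _

private lemma Enum_bv_supp (v : V) (q : ℕ × ℤ) (hq : q ∈ v.2.support) :
    q.2.natAbs ≤ Enum_bv v ∧ q.1 + 1 ≤ Enum_bv v := by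
  have h := Finset.single_le_sum (f := fun q : ℕ × ℤ => q.2.natAbs + (q.1 + 1))
    (fun _ _ => Nat.zero_le _) hq
  have h' : q.2.natAbs + (q.1 + 1) ≤ ∑ q ∈ v.2.support, (q.2.natAbs + (q.1 + 1)) := h
  have h'' : ∑ q ∈ v.2.support, (q.2.natAbs + (q.1 + 1)) ≤ Enum_bv v := Nat.le_add_left _ _
  omega

/-- The nonzero polynomials in the variables of negative level form a countable nonempty set, so
they can be enumerated; `ρ r` is the sum over `r' ≤ r` of a bound for all the numbers occurring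
in the variables of `R r'`. -/
theorem exists_data : Nonempty Data := by
  classical
  have hc : Countable P := by
    have h : Countable ((V →₀ ℕ) →₀ ZMod 2) := inferInstance
    exact Function.Surjective.countable
      (f := fun c : (V →₀ ℕ) →₀ ZMod 2 => (AddMonoidAlgebra.ofCoeff c : P)) fun p => ⟨AddMonoidAlgebra.coeff p, rfl⟩
  have hne : Nonempty {p : P // p ≠ 0 ∧ ∀ v ∈ p.vars, v.1.1 < 0} :=
    ⟨⟨1, one_ne_zero, by simp⟩⟩
  obtain ⟨e, he⟩ := exists_surjective_nat {p : P // p ≠ 0 ∧ ∀ v ∈ p.vars, v.1.1 < 0}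
  have hle : ∀ r, ∀ v ∈ (e r).1.vars,
      Enum_bv v ≤ ∑ r' ∈ Finset.range (r + 1), ∑ v ∈ (e r').1.vars, Enum_bv v := by
    intro r v hv
    have h1 : Enum_bv v ≤ ∑ v ∈ (e r).1.vars, Enum_bv v :=
      Finset.single_le_sum (f := Enum_bv) (fun _ _ => Nat.zero_le _) hv
    have h2 : (∑ v ∈ (e r).1.vars, Enum_bv v) ≤
        ∑ r' ∈ Finset.range (r + 1), ∑ v ∈ (e r').1.vars, Enum_bv v :=
      Finset.single_le_sum (f := fun r' => ∑ v ∈ (e r').1.vars, Enum_bv v)
        (fun _ _ => Nat.zero_le _) (Finset.mem_range.2 (Nat.lt_succ_self r))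
    exact h1.trans h2
  exact ⟨{
    R := fun r => (e r).1
    ρ := fun r => ∑ r' ∈ Finset.range (r + 1), ∑ v ∈ (e r').1.vars, Enum_bv v
    R_ne := fun r => (e r).2.1
    R_neg := fun r => (e r).2.2
    R_surj := by
      intro p hp hv
      obtain ⟨r, hr⟩ := he ⟨p, hp, hv⟩
      exact ⟨r, congrArg Subtype.val hr⟩
    ρ_mono := by
      intro r s hrs
      exact Finset.sum_le_sum_of_subset (Finset.range_subset_range.2 (by omega))
    ρ_coord := fun r v hv => (Enum_bv_coord v).trans (hle r v hv)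
    ρ_supp := fun r v hv q hq =>
      ⟨(Enum_bv_supp v q hq).1.trans (hle r v hv), (Enum_bv_supp v q hq).2.trans (hle r v hv)⟩ }⟩

/-- the positions are strictly increasing -/
theorem Data.pos_strictMono (D : Data) : StrictMono D.pos := by
  intro r s hrs
  have h := D.ρ_mono hrs.le
  unfold Data.pos
  have h1 : (r + D.ρ r + 2) * (D.ρ r + 2) < (s + D.ρ s + 2) * (D.ρ s + 2) := by
    apply Nat.mul_lt_mul_of_lt_of_le (by omega) (by omega) (by omega)
  exact_mod_cast h1

end Pool.Agent.WBec814
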