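import Pool.Agent.W_bec814_h13.Shift2

set_option autoImplicit false

namespace Pool.Agent.WBec814

theorem FieldA_mul {B : Type} [Group B] (φ : Multiplicative N →* B) (ψ : Multiplicative G →* B)
    (h : ∀ g n, ψ (Multiplicative.ofAdd g) * φ (Multiplicative.ofAdd n) *
      (ψ (Multiplicative.ofAdd g))⁻¹ = φ (Multiplicative.ofAdd (trN g n))) (n n' : N) (g g' : G) :
    (φ (Multiplicative.ofAdd n) * ψ (Multiplicative.ofAdd g)) *
      (φ (Multiplicative.ofAdd n') * ψ (Multiplicative.ofAdd g')) =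
    φ (Multiplicative.ofAdd (n + trN g n')) * ψ (Multiplicative.ofAdd (g + g')) := by
  rw [ofAdd_add, ofAdd_add, map_mul, map_mul, ← h]
  group

theorem FieldA_inv {B : Type} [Group B] (φ : Multiplicative N →* B) (ψ : Multiplicative G →* B)
    (h : ∀ g n, ψ (Multiplicative.ofAdd g) * φ (Multiplicative.ofAdd n) *
      (ψ (Multiplicative.ofAdd g))⁻¹ = φ (Multiplicative.ofAdd (trN g n))) (n : N) (g : G) :
    (φ (Multiplicative.ofAdd n) * ψ (Multiplicative.ofAdd g))⁻¹ =
    φ (Multiplicative.ofAdd (trN (-g) (-n))) * ψ (Multiplicative.ofAdd (-g)) := by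
  rw [← h, ofAdd_neg, ofAdd_neg, map_inv, map_inv]
  group

/-- Abstract: if `φ : N → B`, `ψ : G → B` satisfy `ψ g φ n (ψ g)⁻¹ = φ (g n)`, then the group
generated by `φ (single 0 1)`, `ψ (1,0)`, `ψ (0,1)` is the set of all `φ n * ψ g`, and it is
metabelian. -/
theorem closure_eq {B : Type} [Group B] (φ : Multiplicative N →* B) (ψ : Multiplicative G →* B)
    (h : ∀ g n, ψ (Multiplicative.ofAdd g) * φ (Multiplicative.ofAdd n) *
      (ψ (Multiplicative.ofAdd g))⁻¹ = φ (Multiplicative.ofAdd (trN g n))) (b : B) :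
    b ∈ Subgroup.closure ({φ (Multiplicative.ofAdd (Finsupp.single ((0 : ℤ), (0 : ℤ)) 1)),
      ψ (Multiplicative.ofAdd (1, 0)), ψ (Multiplicative.ofAdd (0, 1))} : Set B) ↔
    ∃ n g, b = φ (Multiplicative.ofAdd n) * ψ (Multiplicative.ofAdd g) := by
  have hφ0 : φ (Multiplicative.ofAdd 0) = 1 := by rw [ofAdd_zero, map_one]
  have hψ0 : ψ (Multiplicative.ofAdd 0) = 1 := by rw [ofAdd_zero, map_one]
  constructor
  · intro hb
    let S : Subgroup B :=
      { carrier := {b | ∃ n g, b = φ (Multiplicative.ofAdd n) * ψ (Multiplicative.ofAdd g)}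
        mul_mem' := by
          rintro _ _ ⟨n, g, rfl⟩ ⟨n', g', rfl⟩
          exact ⟨_, _, FieldA_mul φ ψ h n n' g g'⟩
        one_mem' := ⟨0, 0, by rw [hφ0, hψ0, mul_one]⟩
        inv_mem' := by
          rintro _ ⟨n, g, rfl⟩
          exact ⟨_, _, FieldA_inv φ ψ h n g⟩ }
    have hle : Subgroup.closure ({φ (Multiplicative.ofAdd (Finsupp.single ((0 : ℤ), (0 : ℤ)) 1)),
      ψ (Multiplicative.ofAdd (1, 0)), ψ (Multiplicative.ofAdd (0, 1))} : Set B) ≤ S := by
      rw [Subgroup.closure_le]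
      intro x hx
      rcases hx with hx | hx | hx
      · exact ⟨_, 0, by rw [hψ0, mul_one]; exact hx⟩
      · exact ⟨0, _, by rw [hφ0, one_mul]; exact hx⟩
      · exact ⟨0, _, by rw [hφ0, one_mul]; exact hx⟩
    exact hle hb
  · rintro ⟨n, g, rfl⟩
    set H := Subgroup.closure ({φ (Multiplicative.ofAdd (Finsupp.single ((0 : ℤ), (0 : ℤ)) 1)),
      ψ (Multiplicative.ofAdd (1, 0)), ψ (Multiplicative.ofAdd (0, 1))} : Set B) with hH
    have h1 : φ (Multiplicative.ofAdd (Finsupp.single ((0 : ℤ), (0 : ℤ)) 1)) ∈ H :=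
      Subgroup.subset_closure (by simp)
    have h2 : ψ (Multiplicative.ofAdd (1, 0)) ∈ H := Subgroup.subset_closure (by simp)
    have h3 : ψ (Multiplicative.ofAdd (0, 1)) ∈ H := Subgroup.subset_closure (by simp)
    have hψ : ∀ g : G, ψ (Multiplicative.ofAdd g) ∈ H := by
      rintro ⟨a, b⟩
      have h4 : ((a, b) : G) = a • ((1, 0) : G) + b • ((0, 1) : G) := by
        ext <;> simp
      rw [h4, ofAdd_add, map_mul, ofAdd_zsmul, ofAdd_zsmul, map_zpow, map_zpow]
      exact H.mul_mem (H.zpow_mem h2 _) (H.zpow_mem h3 _)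
    have hφs : ∀ (g : G) (k : ℤ), φ (Multiplicative.ofAdd (Finsupp.single g k)) ∈ H := by
      intro g k
      have h4 : φ (Multiplicative.ofAdd (Finsupp.single ((0 : ℤ), (0 : ℤ)) k)) ∈ H := by
        have h5 : (Finsupp.single ((0 : ℤ), (0 : ℤ)) k : N) =
            k • Finsupp.single ((0 : ℤ), (0 : ℤ)) 1 := by
          rw [Finsupp.smul_single]
          simp
        rw [h5, ofAdd_zsmul, map_zpow]
        exact H.zpow_mem h1 _
      have h5 := h g (Finsupp.single ((0 : ℤ), (0 : ℤ)) k)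
      rw [trN_single] at h5
      have h6 : g + ((0 : ℤ), (0 : ℤ)) = g := add_zero g
      rw [h6] at h5
      rw [← h5]
      exact H.mul_mem (H.mul_mem (hψ g) h4) (H.inv_mem (hψ g))
    have hφ : ∀ n : N, φ (Multiplicative.ofAdd n) ∈ H := by
      intro n
      induction n using Finsupp.induction_linear with
      | zero => rw [hφ0]; exact H.one_mem
      | add n n' hn hn' => rw [ofAdd_add, map_mul]; exact H.mul_mem hn hn'
      | single g k => exact hφs g k
    exact H.mul_mem (hφ n) (hψ g)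

theorem derived_two {B : Type} [Group B] (φ : Multiplicative N →* B) (ψ : Multiplicative G →* B)
    (h : ∀ g n, ψ (Multiplicative.ofAdd g) * φ (Multiplicative.ofAdd n) *
      (ψ (Multiplicative.ofAdd g))⁻¹ = φ (Multiplicative.ofAdd (trN g n))) (A : Subgroup B)
    (hA : ∀ b ∈ A, ∃ n g, b = φ (Multiplicative.ofAdd n) * ψ (Multiplicative.ofAdd g)) :
    derivedSeries A 2 = ⊥ := by
  have hD1 : ∀ a ∈ derivedSeries A 1, ∃ n, (a : B) = φ (Multiplicative.ofAdd n) := by
    let S : Subgroup A :=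
      { carrier := {a | ∃ n, (a : B) = φ (Multiplicative.ofAdd n)}
        mul_mem' := by
          rintro a b ⟨n, hn⟩ ⟨m, hm⟩
          exact ⟨n + m, by rw [Subgroup.coe_mul, hn, hm, ofAdd_add, map_mul]⟩
        one_mem' := ⟨0, by simp⟩
        inv_mem' := by
          rintro a ⟨n, hn⟩
          exact ⟨-n, by rw [Subgroup.coe_inv, hn, ofAdd_neg, map_inv]⟩ }
    have hle : derivedSeries A 1 ≤ S := by
      rw [derivedSeries_succ, derivedSeries_zero, Subgroup.commutator_le]
      intro p _ q _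
      obtain ⟨n, g, hp⟩ := hA p p.2
      obtain ⟨n', g', hq⟩ := hA q q.2
      refine ⟨(n + trN g n') - (n' + trN g' n), ?_⟩
      have h1 : (((p * q * p⁻¹ * q⁻¹ : A)) : B) = ((p : B) * (q : B)) * ((q : B) * (p : B))⁻¹ := by
        push_cast
        group
      show (((p * q * p⁻¹ * q⁻¹ : A)) : B) = _
      rw [h1, hp, hq, FieldA_mul φ ψ h, FieldA_mul φ ψ h, add_comm g' g, ofAdd_sub, map_div, div_eq_mul_inv]
      group
    exact fun a ha => hle ha
  rw [derivedSeries_succ, eq_bot_iff, Subgroup.commutator_le]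
  intro p hp q hq
  obtain ⟨n, hn⟩ := hD1 p hp
  obtain ⟨m, hm⟩ := hD1 q hq
  rw [Subgroup.mem_bot, commutatorElement_eq_one_iff_mul_comm]
  apply Subtype.ext
  rw [Subgroup.coe_mul, Subgroup.coe_mul, hn, hm, ← φ.map_mul, ← φ.map_mul,
    mul_comm (Multiplicative.ofAdd n)]

end Pool.Agent.WBec814
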