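import Pool.Agent.W_bec814_h13.ActD
import Pool.Agent.W_bec814_h13.FieldA

set_option autoImplicit false

namespace Pool.Agent.WBec814

open MvPolynomial

theorem FieldB_τ_algebraMap (g : G) (p : P) :
    τ g (algebraMap P K p) = algebraMap P K (rename (trV g) p) :=
  IsFractionRing.ringEquivOfRingEquiv_algebraMap _ _

theorem FieldB_emb_zero : emb 0 = 0 := by
  unfold emb
  exact Finsupp.embDomain_zero _

theorem FieldB_wact_zero (F : M → ℤ → K) : wact F 0 = Y := by
  funext v
  unfold wact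
  rw [sh_zero, zer_zero, Finsupp.prod_zero_index, mul_one, add_zero]

theorem FieldB_neg (p : P) : ∃ k : ℤ, ∀ v ∈ (rename (trV ((-k, 0) : G)) p).vars, v.1.1 < 0 := by
  classical
  refine ⟨1 + ∑ v ∈ p.vars, |v.1.1|, fun v hv => ?_⟩
  have h1 := vars_rename _ _ hv
  obtain ⟨w, hw, rfl⟩ := Finset.mem_image.1 h1
  have h2 : |w.1.1| ≤ ∑ v ∈ p.vars, |v.1.1| :=
    Finset.single_le_sum (f := fun v : V => |v.1.1|) (fun _ _ => abs_nonneg _) hw
  have h3 := le_abs_self w.1.1
  show -(1 + ∑ v ∈ p.vars, |v.1.1|) + w.1.1 < 0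
  linarith

/-- if a subgroup `U` of `Kˣ` is stable under `φ n` and `ψ g` and contains `Y 0`, it is
everything. (1) `Y (g,m) = ψ g (φ (emb m) (Y 0)) ∈ U`; (2) `φ (single (0, pos r) 1) (Y 0) =
Y 0 * F 0 (pos r) = Y 0 * R r` (`Spec.on` with `m = 0`, `emb 0 = 0`, `wact F 0 = Y`, `aeval_Y`), so
`R r ∈ U` for all `r`; (3) for a nonzero polynomial `p` there is `k` such that the translate of `p`
by `(-k, 0)` has all its variables of negative level, so it is some `R r`, and `p ∈ U`;
(4) every element of `Kˣ` is a quotient of two nonzero polynomials. -/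
theorem top_of_stable (D : Data) (F : M → ℤ → K) (φ : Multiplicative N →* RingAut K)
    (ψ : Multiplicative G →* RingAut K) (hF : Spec D F)
    (hφ : ∀ n v, φ (Multiplicative.ofAdd n) (Y v) = wact F n v)
    (hψ : ∀ g y, ψ (Multiplicative.ofAdd g) y = τ g y)
    (U : Subgroup Kˣ)
    (h0 : ∀ u : Kˣ, (u : K) = Y (0, 0) → u ∈ U)
    (hU1 : ∀ n (u u' : Kˣ), u ∈ U → (u' : K) = φ (Multiplicative.ofAdd n) u → u' ∈ U)
    (hU2 : ∀ g (u u' : Kˣ), u ∈ U → (u' : K) = ψ (Multiplicative.ofAdd g) u → u' ∈ U) :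
    U = ⊤ := by
  have hY00 : Y (0, 0) ≠ 0 := Y_ne_zero _
  have h00 : Units.mk0 (Y (0, 0)) hY00 ∈ U := h0 _ rfl
  -- the labels
  have hR : ∀ r, ∀ u : Kˣ, (u : K) = algebraMap P K (D.R r) → u ∈ U := by
    intro r u hu
    have h1 : wact F (Finsupp.single ((0 : ℤ), D.pos r) 1) (0, 0) =
        Y (0, 0) * algebraMap P K (D.R r) := by
      have h2 := hF.on 0 r
      rw [FieldB_emb_zero, FieldB_wact_zero, aeval_Y] at h2
      unfold wact
      have h3 : sh (0 : G) (Finsupp.single ((0 : ℤ), D.pos r) 1) = 0 := sh_single _ _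
      have h4 : zer (0 : G) (Finsupp.single ((0 : ℤ), D.pos r) 1) =
          Finsupp.single (D.pos r) 1 := zer_single _ _
      rw [h3, h4, Finsupp.prod_single_index (zpow_zero _), zpow_one, add_zero, τ_zero, h2]
    have h2 : Units.mk0 (Y (0, 0)) hY00 * u ∈ U := by
      refine hU1 (Finsupp.single ((0 : ℤ), D.pos r) 1) _ _ h00 ?_
      rw [Units.val_mul, Units.val_mk0, hφ, h1, hu]
    have h3 := U.mul_mem (U.inv_mem h00) h2
    rwa [inv_mul_cancel_left] at h3
  -- all polynomials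
  have hP : ∀ p : P, p ≠ 0 → ∀ u : Kˣ, (u : K) = algebraMap P K p → u ∈ U := by
    intro p hp u hu
    obtain ⟨k, hk⟩ := FieldB_neg p
    have hne : rename (trV ((-k, 0) : G)) p ≠ 0 := by
      intro hh
      apply hp
      have h1 : Function.Injective (rename (trV ((-k, 0) : G)) : P → P) :=
        rename_injective _ (trV _).injective
      exact h1 (hh.trans (map_zero _).symm)
    obtain ⟨r, hr⟩ := D.R_surj _ hne hk
    have h1 : algebraMap P K (D.R r) ≠ 0 := by
      rw [hr]
      exact fun hh => hne ((IsFractionRing.injective P K) (hh.trans (map_zero _).symm))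
    have h2 := hR r (Units.mk0 _ h1) rfl
    refine hU2 (k, 0) _ u h2 ?_
    rw [hψ, Units.val_mk0, hr, FieldB_τ_algebraMap, rename_rename, hu]
    congr 1
    have h3 : ((trV ((k, 0) : G) : V → V) ∘ (trV ((-k, 0) : G))) = id := by
      funext v
      refine Prod.ext (Prod.ext ?_ ?_) rfl
      · show k + (-k + v.1.1) = v.1.1
        ring
      · show (0 : ℤ) + (0 + v.1.2) = v.1.2
        ring
    rw [h3, rename_id_apply]
  rw [eq_top_iff]
  intro u _
  obtain ⟨a, b, hb, hab⟩ := IsFractionRing.div_surjective (A := P) (u : K)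
  have hb0 : b ≠ 0 := nonZeroDivisors.ne_zero hb
  have hb1 : algebraMap P K b ≠ 0 := fun hh =>
    hb0 ((IsFractionRing.injective P K) (hh.trans (map_zero _).symm))
  have ha0 : a ≠ 0 := by
    rintro rfl
    rw [map_zero, zero_div] at hab
    exact u.ne_zero hab.symm
  have ha1 : algebraMap P K a ≠ 0 := fun hh =>
    ha0 ((IsFractionRing.injective P K) (hh.trans (map_zero _).symm))
  have h1 : u = Units.mk0 _ ha1 * (Units.mk0 _ hb1)⁻¹ := by
    ext
    rw [Units.val_mul, Units.val_inv_eq_inv_val, Units.val_mk0, Units.val_mk0, ← hab,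
      div_eq_mul_inv]
  rw [h1]
  exact U.mul_mem (hP a ha0 _ rfl) (U.inv_mem (hP b hb0 _ rfl))

end Pool.Agent.WBec814
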