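import Pool.Agent.W_bec814_h13.FieldB

set_option autoImplicit false

namespace Pool.Agent.WBec814

open MvPolynomial

theorem FieldC_Y_ne (v : V) : Y v ≠ 0 := by
  intro h
  rw [Y, ← map_zero (algebraMap P K)] at h
  exact MvPolynomial.X_ne_zero v (IsFractionRing.injective P K h)

theorem FieldC_stable (A : Subgroup (RingAut K)) (x : Kˣ) (a : RingAut K) (ha : a ∈ A)
    (u u' : Kˣ) (hu : u ∈ Subgroup.closure {u : Kˣ | ∃ a ∈ A, (u : K) = a x})
    (hu' : (u' : K) = a u) : u' ∈ Subgroup.closure {u : Kˣ | ∃ a ∈ A, (u : K) = a x} := by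
  have h1 : Subgroup.closure {u : Kˣ | ∃ a ∈ A, (u : K) = a x} ≤
      (Subgroup.closure {u : Kˣ | ∃ a ∈ A, (u : K) = a x}).comap
        (Units.map (a : K →* K)) := by
    rw [Subgroup.closure_le]
    rintro v ⟨b, hb, hv⟩
    apply Subgroup.subset_closure
    refine ⟨a * b, A.mul_mem ha hb, ?_⟩
    show a (v : K) = (a * b) x
    rw [hv]
    rfl
  have h2 : u' = Units.map (a : K →* K) u := by
    ext
    exact hu'
  rw [h2]
  exact h1 hu

/-- The output of the field part. -/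
theorem exists_field_group : ∃ (A : Subgroup (RingAut K)) (x : Kˣ), A.FG ∧
    derivedSeries A 2 = ⊥ ∧
    Subgroup.closure {u : Kˣ | ∃ a ∈ A, (u : K) = a x} = ⊤ := by
  obtain ⟨D, F, φ, ψ, hF, hφ, hψ, hc⟩ := exists_hom
  refine ⟨Subgroup.closure ({φ (Multiplicative.ofAdd (Finsupp.single ((0 : ℤ), (0 : ℤ)) 1)),
      ψ (Multiplicative.ofAdd (1, 0)), ψ (Multiplicative.ofAdd (0, 1))} : Set (RingAut K)),
      Units.mk0 (Y (0, 0)) (FieldC_Y_ne _), ?_, ?_, ?_⟩
  · rw [Subgroup.fg_iff]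
    exact ⟨_, rfl, by simp⟩
  · exact derived_two φ ψ hc _ (fun b hb => (closure_eq φ ψ hc b).1 hb)
  · apply top_of_stable D F φ ψ hF hφ hψ
    · intro u hu
      apply Subgroup.subset_closure
      exact ⟨1, Subgroup.one_mem _, hu⟩
    · intro n u u' hu hu'
      refine FieldC_stable _ _ _ ?_ u u' hu hu'
      exact (closure_eq φ ψ hc _).2 ⟨n, 0, by rw [ofAdd_zero, map_one, mul_one]⟩
    · intro g u u' hu hu'
      refine FieldC_stable _ _ _ ?_ u u' hu hu'
      exact (closure_eq φ ψ hc _).2 ⟨0, g, by rw [ofAdd_zero, map_one, one_mul]⟩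

theorem infinite_K : Infinite K :=
  Infinite.of_injective (algebraMap P K) (IsFractionRing.injective P K)

end Pool.Agent.WBec814
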