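import Pool.Agent.W_bec814_h13.Basic

set_option autoImplicit false

namespace Pool.Agent.WBec814

open MvPolynomial

theorem IndepA_Y : AlgebraicIndependent (ZMod 2) Y := by
  have h := MvPolynomial.algebraicIndependent_X V (ZMod 2)
  exact h.map' (f := IsScalarTower.toAlgHom (ZMod 2) P K) (IsFractionRing.injective P K)

/-- The variables of level `≥ l` are algebraically independent over `Klt l`. -/
theorem indep_ge (l : ℤ) :
    AlgebraicIndependent (Klt l) (fun v : {v : V // l ≤ v.1.1} => Y v.1) := by
  have hd : Disjoint {v : V | v.1.1 < l} {v : V | l ≤ v.1.1} := by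
    rw [Set.disjoint_left]
    intro v hv hv'
    simp only [Set.mem_setOf_eq] at hv hv'
    omega
  have h1 := IndepA_Y.adjoin_of_disjoint hd
  have h2 : AlgebraicIndependent (IntermediateField.adjoin (ZMod 2) (Y '' {v : V | v.1.1 < l}))
      (fun v : {v : V | l ≤ v.1.1} => Y v.1) :=
    IntermediateField.algebraicIndependent_adjoin_iff.2 h1
  have hle : Klt l ≤ (IntermediateField.adjoin (ZMod 2) (Y '' {v : V | v.1.1 < l})).toSubfield := by
    rw [Klt, Subfield.closure_le]
    rintro y ⟨v, hv, rfl⟩
    exact IntermediateField.subset_adjoin (ZMod 2) _ ⟨v, hv, rfl⟩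
  let f : Klt l →+* (IntermediateField.adjoin (ZMod 2) (Y '' {v : V | v.1.1 < l})) :=
    Subfield.inclusion hle
  let _ : Algebra (Klt l) (IntermediateField.adjoin (ZMod 2) (Y '' {v : V | v.1.1 < l})) :=
    f.toAlgebra
  have : IsScalarTower (Klt l) (IntermediateField.adjoin (ZMod 2) (Y '' {v : V | v.1.1 < l})) K :=
    .of_algebraMap_eq fun x => rfl
  exact h2.restrictScalars f.injective

end Pool.Agent.WBec814
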