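import Pool.Agent.W_bec814_h13.IndepA

/-! Triangular substitutions are injective. -/

set_option autoImplicit false

namespace Pool.Agent.WBec814

open MvPolynomial

theorem IndepB_scale {S A ι : Type*} [Field S] [CommRing A] [Algebra S A] (y : ι → A)
    (hy : AlgebraicIndependent S y) (u : ι → S) (hu : ∀ i, u i ≠ 0) :
    AlgebraicIndependent S (fun i => algebraMap S A (u i) * y i) := by
  have h1 : (aeval (fun i => algebraMap S A (u i) * y i) : MvPolynomial ι S →ₐ[S] A) =
      (aeval y).comp (aeval (fun i => C (u i) * X i)) := by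
    ext i
    simp [aeval_C]
  have h2 : Function.Injective (aeval (fun i => C (u i) * X i) :
      MvPolynomial ι S →ₐ[S] MvPolynomial ι S) := by
    have h3 : (aeval (fun i => C (u i)⁻¹ * X i) : MvPolynomial ι S →ₐ[S] MvPolynomial ι S).comp
        (aeval (fun i => C (u i) * X i)) = AlgHom.id S _ := by
      ext1 i
      rw [AlgHom.comp_apply, aeval_X, map_mul, aeval_X, aeval_C, AlgHom.id_apply,
        MvPolynomial.algebraMap_eq, ← mul_assoc, ← C_mul, mul_inv_cancel₀ (hu i), C_1, one_mul]
    intro a b hab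
    have h4 := congrArg (aeval (fun i => C (u i)⁻¹ * X i) :
      MvPolynomial ι S →ₐ[S] MvPolynomial ι S) hab
    rw [← AlgHom.comp_apply, ← AlgHom.comp_apply, h3] at h4
    exact h4
  unfold AlgebraicIndependent
  rw [h1, AlgHom.coe_comp]
  exact Function.Injective.comp hy h2

theorem IndepB_mem (l : ℤ) (v : V) (h : v.1.1 < l) : Y v ∈ Klt l :=
  Subfield.subset_closure ⟨v, h, rfl⟩

theorem IndepB_mono {l l' : ℤ} (h : l ≤ l') : Klt l ≤ Klt l' := by
  refine Subfield.closure_mono ?_
  rintro _ ⟨v, hv, rfl⟩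
  exact ⟨v, by omega, rfl⟩

theorem IndepB_alg (l : ℤ) (x : ZMod 2) : algebraMap (ZMod 2) K x ∈ Klt l := by
  rw [← ZMod.natCast_zmod_val x, map_natCast]
  exact natCast_mem _ _

theorem IndepB_level (u : V → K) (π : V → V) (hπ : Function.Injective π)
    (hlev : ∀ v, (π v).1.1 = v.1.1) (hu0 : ∀ v, u v ≠ 0) (hu : ∀ v, u v ∈ Klt v.1.1) (l : ℤ) :
    AlgebraicIndependent (Klt l) (fun v : {v : V // v.1.1 = l} => u v.1 * Y (π v.1)) := by
  have h1 : AlgebraicIndependent (Klt l) (fun v : {v : V // v.1.1 = l} => Y (π v.1)) := by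
    have h2 := (indep_ge l).comp (fun v : {v : V // v.1.1 = l} =>
      (⟨π v.1, by rw [hlev, v.2]⟩ : {v : V // l ≤ v.1.1})) (by
        intro a b hab
        exact Subtype.ext (hπ (congrArg (fun z => z.1) hab)))
    exact h2
  have h3 := IndepB_scale _ h1 (fun v : {v : V // v.1.1 = l} =>
    (⟨u v.1, IndepB_mono (le_of_eq v.2) (hu v.1)⟩ : Klt l)) (fun v h => hu0 v.1 (congrArg Subtype.val h))
  exact h3

theorem IndepB_finite (u : V → K) (π : V → V) (hπ : Function.Injective π)
    (hlev : ∀ v, (π v).1.1 = v.1.1) (hu0 : ∀ v, u v ≠ 0) (hu : ∀ v, u v ∈ Klt v.1.1) (a : ℤ)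
    (n : ℕ) : AlgebraicIndependent (ZMod 2)
      (fun v : {v : V // a ≤ v.1.1 ∧ v.1.1 < a + n} => u v.1 * Y (π v.1)) := by
  classical
  induction n with
  | zero =>
    have : IsEmpty {v : V // a ≤ v.1.1 ∧ v.1.1 < a + (0 : ℕ)} := ⟨fun v => by
      have := v.2
      push_cast at this
      omega⟩
    rw [algebraicIndependent_empty_type_iff]
    exact (algebraMap (ZMod 2) K).injective
  | succ n ih =>
    letI : Algebra (ZMod 2) (Klt (a + n)) :=
      ((algebraMap (ZMod 2) K).codRestrict (Klt (a + n)) (IndepB_alg (a + n))).toAlgebra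
    have := @IsScalarTower.of_algebraMap_eq (ZMod 2) (Klt (a + n)) K _ _ _ _ _ _ (fun _ => rfl)
    have h1 := ih.sumElim_of_tower (S := Klt (a + n)) (by
      rintro _ ⟨v, rfl⟩
      refine ⟨⟨u v.1 * Y (π v.1), (Klt (a + n)).mul_mem
        (IndepB_mono (by have := v.2.2; omega) (hu v.1))
        (IndepB_mem _ _ (by rw [hlev]; exact v.2.2))⟩, rfl⟩)
      (IndepB_level u π hπ hlev hu0 hu (a + n))
    have h2 := h1.comp (fun v : {v : V // a ≤ v.1.1 ∧ v.1.1 < a + (n + 1 : ℕ)} =>
      if h : v.1.1.1 = a + n then Sum.inl (⟨v.1, h⟩ : {v : V // v.1.1 = a + n})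
      else Sum.inr (⟨v.1, v.2.1, by have := v.2.2; push_cast at this; omega⟩ :
        {v : V // a ≤ v.1.1 ∧ v.1.1 < a + n})) (by
        intro v v' hvv
        by_cases h3 : v.1.1.1 = a + n <;> by_cases h4 : v'.1.1.1 = a + n
        · simp only [h3, h4, dif_pos, Sum.inl.injEq, Subtype.mk.injEq] at hvv
          exact Subtype.ext hvv
        · simp [h3, h4] at hvv
        · simp [h3, h4] at hvv
        · simp only [h3, h4, dif_neg, not_false_eq_true, Sum.inr.injEq, Subtype.mk.injEq] at hvv
          exact Subtype.ext hvv)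
    convert h2 using 1
    ext1 v
    by_cases h3 : v.1.1.1 = a + n
    · simp [h3]
    · simp [h3]

/-- MAIN LEMMA. A substitution `Y v ↦ u v * Y (π v)` with `π` injective and level preserving and
`u v ∈ Klt (level v)` nonzero is injective on polynomials.

Proof. By induction on the number of levels of the variables of `p ≠ 0` (or: by induction on the
finite set of levels, top level first): write `p` as a polynomial in the variables of the top
level `l` whose coefficients `c_α` are polynomials in the variables of lower level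
(`MvPolynomial.sumAlgEquiv` or algebraic independence, `AlgebraicIndependent.sumElim_iff`). Then
`aeval w p = ∑ α, (aeval w c_α * u ^ α) * Y_π ^ α`, the coefficients are in `Klt l`, and the
`Y (π v)`, `v` of level `l`, are algebraically independent over `Klt l`. -/
theorem aeval_injective (u : V → K) (π : V → V) (hπ : Function.Injective π)
    (hlev : ∀ v, (π v).1.1 = v.1.1) (hu0 : ∀ v, u v ≠ 0) (hu : ∀ v, u v ∈ Klt v.1.1) :
    Function.Injective (aeval (fun v => u v * Y (π v)) : P → K) := by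
  classical
  rw [injective_iff_map_eq_zero]
  intro p hp
  obtain ⟨a, n, han⟩ : ∃ (a : ℤ) (n : ℕ), ∀ v ∈ p.vars, a ≤ v.1.1 ∧ v.1.1 < a + n := by
    obtain ⟨m, hm⟩ : ∃ m : ℕ, ∀ v ∈ p.vars, v.1.1.natAbs ≤ m :=
      ⟨p.vars.sup fun v => v.1.1.natAbs, fun v hv => Finset.le_sup (f := fun v : V => v.1.1.natAbs) hv⟩
    refine ⟨-(m : ℤ), 2 * m + 1, fun v hv => ?_⟩
    have := hm v hv
    push_cast
    omega
  obtain ⟨q, rfl⟩ := exists_rename_eq_of_vars_subset_range p
    (Subtype.val : {v : V // a ≤ v.1.1 ∧ v.1.1 < a + n} → V) Subtype.val_injective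
    (fun v hv => ⟨⟨v, han v hv⟩, rfl⟩)
  rw [aeval_rename] at hp
  have h1 := (injective_iff_map_eq_zero _).1 (IndepB_finite u π hπ hlev hu0 hu a n) q hp
  rw [h1, map_zero]

end Pool.Agent.WBec814
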