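import Pool.Agent.W_bec814_h13.FieldC
import Pool.Agent.W_bec814_h13.AffFG
import Pool.Agent.W_bec814_h13.AffDer
import Pool.Agent.W_bec814_h13.AffDC
import Pool.Agent.W_bec814_h13.WreathFP
import Pool.Agent.W_bec814_h13.WreathQI
import Pool.Agent.W_bec814_h13.WreathSol

set_option autoImplicit false

namespace Pool.Agent.WBec814

theorem main : ∃ (Q : Type) (_ : Group Q) (H : Subgroup Q),
    Group.FG Q ∧ derivedSeries Q 4 = ⊥ ∧ H.FG ∧ H.index = 0 ∧
    (∃ g ∉ H, ∀ q ∉ H, ∃ h ∈ H, ∃ h' ∈ H, q = h * g * h') ∧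
    (∀ (F : Type) [Group F] [Finite F], Function.Surjective (canon Q F H) ∧
      ∃ R : Finset (Monoid.Coprod Q F),
        (canon Q F H).ker = Subgroup.normalClosure (R : Set (Monoid.Coprod Q F))) ∧
    (∀ (F F' : Type) [Group F] [Group F'] [Finite F] [Finite F'], Nat.card F = Nat.card F' →
      CayleyIso (Wr Q (Q ⧸ H) F) (Wr Q (Q ⧸ H) F')) ∧
    Group.IsSolvable (Wr Q (Q ⧸ H) (Multiplicative (ZMod 60))) ∧
    (∀ L : Subgroup (Wr Q (Q ⧸ H) (alternatingGroup (Fin 5))), L.FiniteIndex →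
      ¬ Group.IsSolvable L) := by
  obtain ⟨A, x, hA, hd, hx⟩ := exists_field_group
  haveI := infinite_K
  haveI hfg : Group.FG (affGroup A) := (Group.fg_iff_subgroup_fg _).2 (affGroup_fg A hA x hx)
  have hsol : Group.IsSolvable (affGroup A) := ⟨⟨4, affGroup_derived A hd⟩⟩
  obtain ⟨g, hg, hq⟩ := affStab_double A
  have hidx := affStab_index A
  refine ⟨affGroup A, inferInstance, affStab A, hfg, affGroup_derived A hd, affStab_fg A hA x hx,
    hidx, ⟨g, hg, hq⟩, fun F _ _ => ⟨canon_surjective _ _ _, ?_⟩,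
    fun F F' _ _ _ _ hc => cayleyIso_wr _ _ _ hc _ hfg, isSolvable_wr _ _ _ hsol inferInstance,
    fun L hL => ?_⟩
  · exact canon_ker _ _ _ (affStab_fg A hA x hx) {g} fun q hq' =>
      ⟨g, Finset.mem_singleton_self g, hg, hq q hq'⟩
  · haveI : Infinite (affGroup A ⧸ affStab A) := by
      rw [Subgroup.index, Nat.card_eq_zero] at hidx
      rcases hidx with h | h
      · exact absurd h (by simp)
      · exact h
    exact not_isSolvable_wr _ _ L hL

end Pool.Agent.WBec814
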