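import Pool.Agent.W_bec814_h13.Basic

/-!
The termination measure of the recursion for `F`.

`mem q s` : the position `q = (d,c)` (level `-(d+1)`, coordinate `c`) is far enough to trigger the
label number `s`. `t q` is the sup of `s + 1` over the `s` with `mem q s`
(`mem q s` implies `s < |c| + d + 2`, since `pos s = (s + ρ s + 2)(ρ s + 2)`).

Facts for `v = (g, m1) ∈ vars (R r)`, `g = (-(d+1), e)`, `|e| ≤ ρ r`:
* `q = (d', c') ∈ supp (sh g (emb m))` comes from `(d' + d + 1, c' + e) ∈ supp m`, and for `s ≥ r`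
  `mem (d',c') s → mem (d'+d+1, c'+e) s`, because
  `|c'| + (d'+1) ρ s ≤ |c'+e| + ρ r + (d'+1) ρ s ≤ |c'+e| + (d'+d+2) ρ s`;
* `q ∈ supp m1` has `|c| ≤ ρ r`, `d+1 ≤ ρ r`, so `mem q s` fails for all `s ≥ r`: `t q ≤ r`;
* `zer g (emb m) (pos s) = m (d, pos s + e)` (if `g.1 = -(d+1)`): if it is nonzero, then
  `h' = (d, pos s + e) ∈ supp m`, and `mem h' s` holds when `s ≥ r`; so `s + 1 ≤ t h'`; `h'` does not
  survive in `sh g (emb m)` (it is at level zero).
Hence the multiset `{s+1} + {t q : q ∈ supp (m1 + sh g (emb m))}` is smaller than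
`{r+1} + {t q : q ∈ supp m}`: the element `r + 1` is removed, the elements `t q` with
`q ∈ supp m` either stay, or are replaced by smaller ones, or (if they are `≤ r`) are replaced by
elements `≤ r < r + 1`, the new elements are `≤ r < r+1`; the element `s + 1` is `≤ r < r + 1`
if `s < r` and is charged to `t h'` if `s ≥ r`.
-/

set_option autoImplicit false

namespace Pool.Agent.WBec814

open MvPolynomial

def Data.mem (D : Data) (q : ℕ × ℤ) (s : ℕ) : Prop :=
  D.pos s ≤ |q.2| + ((q.1 : ℤ) + 1) * (D.ρ s : ℤ)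

open Classical in
noncomputable def Data.t (D : Data) (q : ℕ × ℤ) : ℕ :=
  ((Finset.range (q.2.natAbs + q.1 + 2)).filter (fun s => D.mem q s)).sup (fun s => s + 1)

noncomputable def Data.μ (D : Data) (m : M) (r : ℕ) : Multiset ℕ :=
  (r + 1) ::ₘ (m.support.val.map D.t)

theorem Data.le_t (D : Data) (q : ℕ × ℤ) (s : ℕ) (h : D.mem q s) : s + 1 ≤ D.t q := by
  classical
  have hs : s < q.2.natAbs + q.1 + 2 := by
    by_contra hcon
    push Not at hcon
    unfold Data.mem Data.pos at h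
    have h1 : (|q.2| : ℤ) = (q.2.natAbs : ℤ) := (Int.natCast_natAbs q.2).symm
    rw [h1] at h
    have h2 : (s + D.ρ s + 2) * (D.ρ s + 2) ≤ q.2.natAbs + (q.1 + 1) * D.ρ s := by
      exact_mod_cast h
    have h3 : (q.2.natAbs + q.1 + 4 + D.ρ s) * (D.ρ s + 2) ≤ (s + D.ρ s + 2) * (D.ρ s + 2) :=
      Nat.mul_le_mul_right _ (by omega)
    nlinarith [Nat.zero_le (q.2.natAbs * D.ρ s), Nat.zero_le (D.ρ s * D.ρ s)]
  unfold Data.t
  exact Finset.le_sup (f := fun s => s + 1)
    (Finset.mem_filter.2 ⟨Finset.mem_range.2 hs, h⟩)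

theorem Data.t_le (D : Data) (q : ℕ × ℤ) (r : ℕ) (h : ∀ s, r ≤ s → ¬ D.mem q s) : D.t q ≤ r := by
  classical
  unfold Data.t
  apply Finset.sup_le
  intro s hs
  by_contra hcon
  exact h s (by omega) (Finset.mem_filter.1 hs).2

/-- comparison lemma for the Dershowitz-Manna order -/
theorem Measure_dm {ι κ : Type*} [DecidableEq ι] [DecidableEq κ] (A : Finset ι) (B : Finset κ)
    (a : ι → ℕ) (b : κ → ℕ) (r : ℕ) (φ : ι → κ)
    (hφ : ∀ i ∈ A, r < a i → φ i ∈ B ∧ a i ≤ b (φ i))
    (hinj : ∀ i ∈ A, ∀ j ∈ A, r < a i → r < a j → φ i = φ j → i = j) :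
    Multiset.IsDershowitzMannaLT (A.val.map a) ((r + 1) ::ₘ B.val.map b) := by
  classical
  let A1 := A.filter (fun i => r < a i ∧ a i = b (φ i))
  let A2 := A.filter (fun i => ¬ (r < a i ∧ a i = b (φ i)))
  let B2 := B.filter (fun k => k ∉ A1.image φ)
  have hB1 : B.filter (fun k => k ∈ A1.image φ) = A1.image φ := by
    ext k
    rw [Finset.mem_filter]
    constructor
    · exact fun h => h.2
    · intro h
      refine ⟨?_, h⟩
      obtain ⟨i, hi, rfl⟩ := Finset.mem_image.1 h
      obtain ⟨hiA, hi1, -⟩ := Finset.mem_filter.1 hi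
      exact (hφ i hiA hi1).1
  have hinj1 : Set.InjOn φ A1 := by
    intro i hi j hj hij
    obtain ⟨hiA, hi1, -⟩ := Finset.mem_filter.1 hi
    obtain ⟨hjA, hj1, -⟩ := Finset.mem_filter.1 hj
    exact hinj i hiA j hjA hi1 hj1 hij
  refine ⟨A1.val.map a, A2.val.map a, (r + 1) ::ₘ B2.val.map b, Multiset.cons_ne_zero, ?_, ?_, ?_⟩
  · rw [← Multiset.map_add]
    congr 1
    exact (Multiset.filter_add_not _ _).symm
  · have h1 : B.val = (A1.image φ).val + B2.val := by
      rw [← hB1]
      exact (Multiset.filter_add_not _ _).symm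
    have h2 : (A1.image φ).val.map b = A1.val.map a := by
      rw [Finset.image_val_of_injOn hinj1, Multiset.map_map]
      apply Multiset.map_congr rfl
      intro i hi
      exact ((Finset.mem_filter.1 hi).2.2).symm
    rw [h1, Multiset.map_add, h2, Multiset.add_cons]
  · intro y hy
    obtain ⟨i, hi, rfl⟩ := Multiset.mem_map.1 hy
    obtain ⟨hiA, hi1⟩ := Finset.mem_filter.1 hi
    by_cases hr : r < a i
    · have h1 := hφ i hiA hr
      have hne : a i ≠ b (φ i) := fun h => hi1 ⟨hr, h⟩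
      refine ⟨b (φ i), Multiset.mem_cons_of_mem (Multiset.mem_map_of_mem b ?_),
        lt_of_le_of_ne h1.2 hne⟩
      refine Finset.mem_filter.2 ⟨h1.1, ?_⟩
      intro hmem
      obtain ⟨j, hj, hji⟩ := Finset.mem_image.1 hmem
      obtain ⟨hjA, hj1, hj2⟩ := Finset.mem_filter.1 hj
      have := hinj j hjA i hiA hj1 hr hji
      subst this
      exact hne hj2
    · exact ⟨r + 1, Multiset.mem_cons_self _ _, by omega⟩

theorem Measure_emb (m : M) (x : G) (k : ℕ) (hx : x.1 = -((k : ℤ) + 1)) :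
    emb m x = m (k, x.2) := by
  have h1 : x = (⟨fun p : ℕ × ℤ => ((0 - ((p.1 : ℤ) + 1), 0 + p.2) : G), posN_injective 0⟩ :
      (ℕ × ℤ) ↪ G) (k, x.2) := by
    apply Prod.ext
    · show x.1 = 0 - ((k : ℤ) + 1)
      rw [hx]
      ring
    · show x.2 = 0 + x.2
      ring
  unfold emb
  conv_lhs => rw [h1]
  exact Finsupp.embDomain_apply_self _ _ _

theorem Data.decrease (D : Data) (m : M) (r : ℕ) (v : V) (hv : v ∈ (D.R r).vars) (s : ℕ)
    (hs : zer v.1 (emb m) (D.pos s) ≠ 0) :
    Multiset.IsDershowitzMannaLT (D.μ (v.2 + sh v.1 (emb m)) s) (D.μ m r) := by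
  classical
  have hneg := D.R_neg r v hv
  obtain ⟨d, hd⟩ : ∃ d : ℕ, v.1.1 = -((d : ℤ) + 1) := ⟨(-v.1.1 - 1).toNat, by omega⟩
  have he : (|v.1.2| : ℤ) ≤ (D.ρ r : ℤ) := by
    rw [← Int.natCast_natAbs]
    exact_mod_cast D.ρ_coord r v hv
  have hsh : ∀ q : ℕ × ℤ, sh v.1 (emb m) q = m (d + q.1 + 1, v.1.2 + q.2) := by
    intro q
    rw [sh_apply]
    exact Measure_emb m _ (d + q.1 + 1) (by
      show v.1.1 - ((q.1 : ℤ) + 1) = _
      rw [hd]
      push_cast
      ring)
  have hzer : zer v.1 (emb m) (D.pos s) = m (d, v.1.2 + D.pos s) := by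
    rw [zer_apply]
    exact Measure_emb m _ d hd
  set m' : M := v.2 + sh v.1 (emb m) with hm'
  have hμ : D.μ m' s = (Finset.insertNone m'.support).val.map
      (fun o : Option (ℕ × ℤ) => o.elim (s + 1) D.t) := by
    unfold Data.μ
    have h1 : (Finset.insertNone m'.support).val = none ::ₘ m'.support.val.map some := rfl
    rw [h1, Multiset.map_cons, Multiset.map_map]
    rfl
  rw [hμ]
  unfold Data.μ
  -- monotonicity of the trigger
  have hρ : ∀ s', r ≤ s' → (D.ρ r : ℤ) ≤ (D.ρ s' : ℤ) := fun s' h => by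
    exact_mod_cast D.ρ_mono h
  have hmem : ∀ (q : ℕ × ℤ) (s' : ℕ), r ≤ s' → D.mem q s' →
      D.mem (d + q.1 + 1, v.1.2 + q.2) s' := by
    intro q s' hs' h
    unfold Data.mem at h ⊢
    have h1 := hρ s' hs'
    have h2 : (|q.2| : ℤ) ≤ |v.1.2 + q.2| + |v.1.2| := by
      have h3 := abs_sub_abs_le_abs_sub (-q.2) v.1.2
      have h4 : |(-q.2 : ℤ) - v.1.2| = |v.1.2 + q.2| := by
        rw [← abs_neg]
        congr 1
        ring
      rw [h4, abs_neg] at h3
      linarith
    have h5 : ((q.1 : ℤ) + 1) * (D.ρ s' : ℤ) + (D.ρ s' : ℤ) ≤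
        (((d + q.1 + 1 : ℕ) : ℤ) + 1) * (D.ρ s' : ℤ) := by
      push_cast
      nlinarith [mul_nonneg (Int.natCast_nonneg d) (Int.natCast_nonneg (D.ρ s'))]
    show D.pos s' ≤ |v.1.2 + q.2| + (((d + q.1 + 1 : ℕ) : ℤ) + 1) * (D.ρ s' : ℤ)
    linarith
  have hsupp1 : ∀ q ∈ v.2.support, D.t q ≤ r := by
    intro q hq
    apply D.t_le
    intro s' hs' h
    obtain ⟨h1, h2⟩ := D.ρ_supp r v hv q hq
    have h3 := D.ρ_mono hs'
    unfold Data.mem Data.pos at h
    rw [← Int.natCast_natAbs q.2] at h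
    have h4 : (s' + D.ρ s' + 2) * (D.ρ s' + 2) ≤ q.2.natAbs + (q.1 + 1) * D.ρ s' := by
      exact_mod_cast h
    have h5 : (q.1 + 1) * D.ρ s' ≤ D.ρ s' * D.ρ s' := Nat.mul_le_mul_right _ (h2.trans h3)
    nlinarith [Nat.zero_le (s' * D.ρ s')]
  have ht : ∀ q : ℕ × ℤ, r < D.t q → D.t q ≤ D.t (d + q.1 + 1, v.1.2 + q.2) := by
    intro q hq
    by_contra hcon
    push Not at hcon
    have h1 : D.t q ≤ max r (D.t (d + q.1 + 1, v.1.2 + q.2)) := by
      unfold Data.t
      apply Finset.sup_le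
      intro s' hs'
      have h2 := (Finset.mem_filter.1 hs').2
      rcases lt_or_ge s' r with h3 | h3
      · exact le_max_of_le_left h3
      · exact le_max_of_le_right (D.le_t _ _ (hmem q s' h3 h2))
    rcases le_max_iff.1 h1 with h | h <;> omega
  apply Measure_dm (Finset.insertNone m'.support) m.support _ D.t r
    (fun o : Option (ℕ × ℤ) => o.elim (d, v.1.2 + D.pos s) (fun q => (d + q.1 + 1, v.1.2 + q.2)))
  · intro o ho hr
    cases o with
    | none =>
      have hr' : r ≤ s := by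
        have : r < s + 1 := hr
        omega
      constructor
      · show (d, v.1.2 + D.pos s) ∈ m.support
        rw [Finsupp.mem_support_iff, ← hzer]
        exact hs
      · show s + 1 ≤ D.t (d, v.1.2 + D.pos s)
        apply D.le_t
        show D.pos s ≤ |v.1.2 + D.pos s| + ((d : ℤ) + 1) * (D.ρ s : ℤ)
        have h1 := hρ s hr'
        have h2 := le_abs_self (v.1.2 + D.pos s)
        have h3 := neg_abs_le v.1.2
        nlinarith [mul_nonneg (Int.natCast_nonneg d) (Int.natCast_nonneg (D.ρ s))]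
    | some q =>
      have hq : q ∈ m'.support := Finset.some_mem_insertNone.1 ho
      have hr' : r < D.t q := hr
      refine ⟨?_, ht q hr'⟩
      show (d + q.1 + 1, v.1.2 + q.2) ∈ m.support
      rw [Finsupp.mem_support_iff, ← hsh]
      intro h0
      rw [Finsupp.mem_support_iff, hm', Finsupp.add_apply, h0, add_zero] at hq
      have := hsupp1 q (Finsupp.mem_support_iff.2 hq)
      omega
  · intro o _ o' _ _ _ h
    cases o with
    | none =>
      cases o' with
      | none => rfl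
      | some q' =>
        have h1 : d = d + q'.1 + 1 := congrArg Prod.fst h
        omega
    | some q =>
      cases o' with
      | none =>
        have h1 : d + q.1 + 1 = d := congrArg Prod.fst h
        omega
      | some q' =>
        have h1 : d + q.1 + 1 = d + q'.1 + 1 := congrArg Prod.fst h
        have h2 : v.1.2 + q.2 = v.1.2 + q'.2 := congrArg Prod.snd h
        congr 1
        apply Prod.ext
        · omega
        · omega

end Pool.Agent.WBec814
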