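import Pool.Agent.W_bec814_h13.Basic

/-! Elementary facts on `τ`, `Klt`, `aeval`. -/

set_option autoImplicit false

namespace Pool.Agent.WBec814

open MvPolynomial

theorem Shift1_eq (w : V → K) (p : P) :
    aeval w p = ∑ d ∈ p.support, algebraMap (ZMod 2) K (p.coeff d) *
      ∏ v ∈ d.support, w v ^ d v := by
  rw [aeval_def, eval₂_eq]

theorem Y_ne_zero (v : V) : Y v ≠ 0 := by
  unfold Y
  rw [Ne, map_eq_zero_iff _ (IsFractionRing.injective P K)]
  exact MvPolynomial.X_ne_zero v

theorem Y_injective : Function.Injective Y := by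
  intro v w h
  exact MvPolynomial.X_injective (IsFractionRing.injective P K h)

theorem τ_Y (g : G) (v : V) : τ g (Y v) = Y (g + v.1, v.2) := by
  unfold τ Y
  rw [IsFractionRing.ringEquivOfRingEquiv_algebraMap]
  congr 1
  show (renameEquiv (ZMod 2) (trV g)) (X v) = _
  rw [renameEquiv_apply, rename_X]
  rfl

/-- two ring homomorphisms `K → K` that agree on the variables are equal -/
theorem ringHom_ext' (f f' : K →+* K) (h : ∀ v, f (Y v) = f' (Y v)) : f = f' := by
  refine IsLocalization.ringHom_ext (nonZeroDivisors P) ?_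
  refine MvPolynomial.ringHom_ext' (RingHom.ext_zmod _ _) ?_
  intro v
  exact h v

/-- two ring homomorphisms `K → K` that agree on the variables of level `< l` agree on `Klt l` -/
theorem eqOn_Klt (f f' : K →+* K) (l : ℤ) (h : ∀ v : V, v.1.1 < l → f (Y v) = f' (Y v)) :
    ∀ y ∈ Klt l, f y = f' y := by
  have h1 : Set.EqOn f f' {y | ∃ v : V, v.1.1 < l ∧ y = Y v} := by
    rintro y ⟨v, hv, rfl⟩
    exact h v hv
  exact fun y hy => RingHom.eqOn_field_closure h1 hy

theorem τ_add (g h : G) (y : K) : τ (g + h) y = τ g (τ h y) := by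
  have h1 : ((τ (g + h) : K ≃+* K) : K →+* K) = ((τ g : K ≃+* K) : K →+* K).comp
      ((τ h : K ≃+* K) : K →+* K) := by
    refine ringHom_ext' _ _ fun v => ?_
    show τ (g + h) (Y v) = τ g (τ h (Y v))
    rw [τ_Y, τ_Y, τ_Y, add_assoc]
  exact congrArg (fun f : K →+* K => f y) h1

theorem τ_zero (y : K) : τ 0 y = y := by
  have h1 : ((τ 0 : K ≃+* K) : K →+* K) = RingHom.id K := by
    refine ringHom_ext' _ _ fun v => ?_
    show τ 0 (Y v) = Y v
    rw [τ_Y, zero_add]
  exact congrArg (fun f : K →+* K => f y) h1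

theorem τ_mem_Klt (g : G) (l : ℤ) (y : K) (hy : y ∈ Klt l) : τ g y ∈ Klt (g.1 + l) := by
  have h1 : Klt l ≤ (Klt (g.1 + l)).comap ((τ g : K ≃+* K) : K →+* K) := by
    refine Subfield.closure_le.2 ?_
    rintro y ⟨v, hv, rfl⟩
    show τ g (Y v) ∈ Klt (g.1 + l)
    rw [τ_Y]
    refine Subfield.subset_closure ⟨(g + v.1, v.2), ?_, rfl⟩
    show (g + v.1).1 < g.1 + l
    rw [Prod.fst_add]
    omega
  exact h1 hy

theorem Klt_mono (l l' : ℤ) (h : l ≤ l') : Klt l ≤ Klt l' := by
  refine Subfield.closure_mono ?_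
  rintro y ⟨v, hv, rfl⟩
  exact ⟨v, lt_of_lt_of_le hv h, rfl⟩

theorem Y_mem_Klt (v : V) (l : ℤ) (h : v.1.1 < l) : Y v ∈ Klt l := by
  exact Subfield.subset_closure ⟨v, h, rfl⟩

/-- `aeval` of a polynomial all of whose variables are sent into a subfield -/
theorem aeval_mem (L : Subfield K) (w : V → K) (p : P) (h : ∀ v ∈ p.vars, w v ∈ L) :
    aeval w p ∈ L := by
  rw [Shift1_eq]
  refine L.sum_mem fun d hd => L.mul_mem ?_ (L.prod_mem fun v hv => L.pow_mem (h v ?_) _)
  · have h1 : ∀ r : ZMod 2, algebraMap (ZMod 2) K r ∈ L := by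
      intro r
      rw [← ZMod.natCast_zmod_val r, map_natCast]
      exact natCast_mem L _
    exact h1 _
  · exact (MvPolynomial.mem_vars v).2 ⟨d, hd, hv⟩

theorem aeval_Y (p : P) : aeval Y p = algebraMap P K p := by
  have h1 : ((aeval Y : P →ₐ[ZMod 2] K) : P →+* K) = algebraMap P K := by
    refine MvPolynomial.ringHom_ext' (RingHom.ext_zmod _ _) fun v => ?_
    show aeval Y (X v) = algebraMap P K (X v)
    rw [aeval_X]
    rfl
  exact congrArg (fun f : P →+* K => f p) h1

/-- a ring homomorphism applied to `aeval w p` -/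
theorem map_aeval' (f : K →+* K) (w : V → K) (p : P) :
    f (aeval w p) = aeval (fun v => f (w v)) p := by
  have h1 : f.comp ((aeval w : P →ₐ[ZMod 2] K) : P →+* K) =
      ((aeval (fun v => f (w v)) : P →ₐ[ZMod 2] K) : P →+* K) := by
    refine MvPolynomial.ringHom_ext' (RingHom.ext_zmod _ _) fun v => ?_
    show f (aeval w (X v)) = aeval (fun v => f (w v)) (X v)
    rw [aeval_X, aeval_X]
  exact congrArg (fun f : P →+* K => f p) h1

theorem aeval_congr' (w w' : V → K) (p : P) (h : ∀ v ∈ p.vars, w v = w' v) :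
    aeval w p = aeval w' p := by
  rw [Shift1_eq, Shift1_eq]
  refine Finset.sum_congr rfl fun d hd => ?_
  congr 1
  refine Finset.prod_congr rfl fun v hv => ?_
  rw [h v ((MvPolynomial.mem_vars v).2 ⟨d, hd, hv⟩)]

end Pool.Agent.WBec814
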