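import Pool.Agent.W_bec814_h13.Basic

/-! Elementary facts on `sh`, `zer`, `emb`, `trN`. -/

set_option autoImplicit false

namespace Pool.Agent.WBec814

theorem Shift2_emb_neg (m : M) (p : ℕ × ℤ) (h : G) (h1 : h.1 = -((p.1 : ℤ) + 1)) (h2 : h.2 = p.2) :
    emb m h = m p := by
  have hh : h = (⟨fun p : ℕ × ℤ => ((0 - ((p.1 : ℤ) + 1), 0 + p.2) : G), posN_injective 0⟩ :
      (ℕ × ℤ) ↪ G) p := by
    change h = (0 - ((p.1 : ℤ) + 1), 0 + p.2)
    refine Prod.ext ?_ ?_
    · rw [h1]; ring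
    · rw [h2]; ring
  rw [hh, emb, Finsupp.embDomain_apply_self]

theorem Shift2_emb_nonneg (m : M) (h : G) (hh : 0 ≤ h.1) : emb m h = 0 := by
  rw [emb]
  refine Finsupp.embDomain_of_notMem_range _ _ _ ?_
  rintro ⟨p, hp⟩
  have h1 : (0 : ℤ) - ((p.1 : ℤ) + 1) = h.1 := congrArg Prod.fst hp
  omega

theorem Shift2_emb_sh (n : N) (h : G) (hh : h.1 < 0) : emb (sh 0 n) h = n h := by
  have h1 : h.1 = -((((-h.1 - 1).toNat : ℕ) : ℤ) + 1) := by omega
  rw [Shift2_emb_neg (sh 0 n) ((-h.1 - 1).toNat, h.2) h h1 rfl, sh_apply]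
  congr 1
  refine Prod.ext ?_ ?_
  · change (0 : ℤ) - ((((-h.1 - 1).toNat : ℕ) : ℤ) + 1) = h.1
    omega
  · change (0 : ℤ) + h.2 = h.2
    ring

theorem sh_add (g : G) (n n' : N) : sh g (n + n') = sh g n + sh g n' := by
  ext p
  rfl

theorem zer_add (g : G) (n n' : N) : zer g (n + n') = zer g n + zer g n' := by
  ext p
  rfl

theorem sh_zero (g : G) : sh g 0 = 0 := by
  ext p
  rfl

theorem zer_zero (g : G) : zer g 0 = 0 := by
  ext p
  rfl

theorem sh_zero_emb (m : M) : sh 0 (emb m) = m := by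
  ext p
  rw [sh_apply]
  refine Shift2_emb_neg m p _ ?_ ?_
  · change (0 : ℤ) - ((p.1 : ℤ) + 1) = -((p.1 : ℤ) + 1)
    ring
  · change (0 : ℤ) + p.2 = p.2
    ring

theorem zer_zero_emb (m : M) : zer 0 (emb m) = 0 := by
  ext c
  rw [zer_apply]
  exact Shift2_emb_nonneg m _ le_rfl

theorem emb_add (m m' : M) : emb (m + m') = emb m + emb m' := by
  ext h
  rw [Finsupp.add_apply]
  rcases lt_or_ge h.1 0 with hh | hh
  · have h1 : h.1 = -((((-h.1 - 1).toNat : ℕ) : ℤ) + 1) := by omega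
    rw [Shift2_emb_neg _ ((-h.1 - 1).toNat, h.2) h h1 rfl,
      Shift2_emb_neg _ ((-h.1 - 1).toNat, h.2) h h1 rfl,
      Shift2_emb_neg _ ((-h.1 - 1).toNat, h.2) h h1 rfl, Finsupp.add_apply]
  · rw [Shift2_emb_nonneg _ _ hh, Shift2_emb_nonneg _ _ hh, Shift2_emb_nonneg _ _ hh, add_zero]

/-- on variables of negative level only the negative part of `n` matters -/
theorem sh_emb_sh (g : G) (n : N) (hg : g.1 < 0) : sh g (emb (sh 0 n)) = sh g n := by
  ext p
  rw [sh_apply, sh_apply]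
  refine Shift2_emb_sh n _ ?_
  change g.1 - ((p.1 : ℤ) + 1) < 0
  omega

theorem zer_emb_sh (g : G) (n : N) (hg : g.1 < 0) : zer g (emb (sh 0 n)) = zer g n := by
  ext c
  rw [zer_apply, zer_apply]
  exact Shift2_emb_sh n _ hg

theorem trN_apply (g : G) (n : N) (h : G) : trN g n h = n (h - g) := by
  have h1 : h = g + (h - g) := by abel
  conv_lhs => rw [h1]
  exact Finsupp.mapDomain_apply (add_right_injective g) n (h - g)

theorem sh_trN (g h : G) (n : N) : sh (g + h) (trN g n) = sh h n := by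
  ext p
  rw [sh_apply, sh_apply, trN_apply]
  congr 1
  refine Prod.ext ?_ ?_
  · change (g.1 + h.1) - ((p.1 : ℤ) + 1) - g.1 = h.1 - ((p.1 : ℤ) + 1)
    ring
  · change (g.2 + h.2) + p.2 - g.2 = h.2 + p.2
    ring

theorem zer_trN (g h : G) (n : N) : zer (g + h) (trN g n) = zer h n := by
  ext c
  rw [zer_apply, zer_apply, trN_apply]
  congr 1
  refine Prod.ext ?_ ?_
  · change (g.1 + h.1) - g.1 = h.1
    ring
  · change (g.2 + h.2) + c - g.2 = h.2 + c
    ring

theorem trN_single (g h : G) (k : ℤ) :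
    trN g (Finsupp.single h k) = Finsupp.single (g + h) k := by
  exact Finsupp.mapDomain_single

theorem trN_add (g : G) (n n' : N) : trN g (n + n') = trN g n + trN g n' := by
  exact Finsupp.mapDomain_add

/-- the element `b` : `sh 0` and `zer 0` of `single (0, c) 1` -/
theorem sh_single (c : ℤ) (k : ℤ) : sh 0 (Finsupp.single ((0 : ℤ), c) k) = 0 := by
  ext p
  rw [sh_apply, Finsupp.single_apply, if_neg]
  · rfl
  · intro h
    have h1 : (0 : ℤ) = 0 - ((p.1 : ℤ) + 1) := congrArg Prod.fst h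
    omega

theorem zer_single (c : ℤ) (k : ℤ) :
    zer 0 (Finsupp.single ((0 : ℤ), c) k) = Finsupp.single c k := by
  ext d
  rw [zer_apply, Finsupp.single_apply, Finsupp.single_apply]
  refine if_congr ?_ rfl rfl
  constructor
  · intro h
    have h1 : c = 0 + d := congrArg Prod.snd h
    rw [h1, zero_add]
  · rintro rfl
    refine Prod.ext rfl ?_
    change c = 0 + c
    ring

end Pool.Agent.WBec814
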