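import Pool.Agent.W_bec814_h13.Recur
import Pool.Agent.W_bec814_h13.IndepB
import Pool.Agent.W_bec814_h13.Shift1
import Pool.Agent.W_bec814_h13.Shift2

set_option autoImplicit false

namespace Pool.Agent.WBec814

open MvPolynomial

theorem Nonvan_prod (F : M → ℤ → K) (g : G) (m' : M) (z : ℤ →₀ ℤ)
    (h : ∀ c ∈ z.support, F m' c ≠ 0 ∧ F m' c ∈ Klt 0) :
    z.prod (fun c k => (τ g (F m' c)) ^ k) ≠ 0 ∧
      z.prod (fun c k => (τ g (F m' c)) ^ k) ∈ Klt g.1 := by
  unfold Finsupp.prod
  constructor
  · rw [Finset.prod_ne_zero_iff]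
    intro c hc
    apply zpow_ne_zero
    intro h0
    exact (h c hc).1 ((map_eq_zero_iff (τ g) (τ g).injective).1 h0)
  · apply Subfield.prod_mem
    intro c hc
    apply zpow_mem
    have := τ_mem_Klt g 0 (F m' c) (h c hc).2
    rwa [add_zero] at this

/-- All the values of `F` are nonzero and in `Klt 0`.
By well-founded induction on `μ m r` (`Data.decrease`): `F m (pos r) = aeval w (R r)` where only
the values `w v` with `v ∈ vars (R r)` matter (`aeval_congr'`); for these
`w v = u v * Y (v.1, v.2 + sh v.1 (emb m))` where `u v` is a product of powers of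
`τ v.1 (F (v.2 + sh v.1 (emb m)) c)` over the `c` in the support of `zer v.1 (emb m)`: by induction
they are nonzero and in `Klt v.1.1` (for `c` not a position `F _ c = 1`). For `v ∉ vars (R r)` put
`w v = Y (v.1, v.2 + sh v.1 (emb m))`. Use `aeval_injective`; `aeval_mem` for `Klt 0`. -/
theorem nonvan (D : Data) (F : M → ℤ → K) (hF : Spec D F) (m : M) (c : ℤ) :
    F m c ≠ 0 ∧ F m c ∈ Klt 0 := by
  classical
  have wf : WellFounded (fun x y : M × ℕ =>
      Multiset.IsDershowitzMannaLT (D.μ x.1 x.2) (D.μ y.1 y.2)) :=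
    InvImage.wf (fun x : M × ℕ => D.μ x.1 x.2) Multiset.wellFounded_isDershowitzMannaLT
  have hoff : ∀ (m : M) (c : ℤ), (∀ r, D.pos r ≠ c) → F m c ≠ 0 ∧ F m c ∈ Klt 0 := by
    intro m c hc
    rw [hF.off m c hc]
    exact ⟨one_ne_zero, one_mem _⟩
  have main : ∀ x : M × ℕ, F x.1 (D.pos x.2) ≠ 0 ∧ F x.1 (D.pos x.2) ∈ Klt 0 := by
    intro x
    induction x using wf.induction with
    | _ x ih =>
      obtain ⟨m, r⟩ := x
      show F m (D.pos r) ≠ 0 ∧ F m (D.pos r) ∈ Klt 0
      let u : V → K := fun v => if v ∈ (D.R r).vars then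
        (zer v.1 (emb m)).prod (fun c k => (τ v.1 (F (v.2 + sh v.1 (emb m)) c)) ^ k) else 1
      let π : V → V := fun v => (v.1, v.2 + sh v.1 (emb m))
      have hu : ∀ v, u v ≠ 0 ∧ u v ∈ Klt v.1.1 := by
        intro v
        by_cases hv : v ∈ (D.R r).vars
        · have h1 : u v = (zer v.1 (emb m)).prod
              (fun c k => (τ v.1 (F (v.2 + sh v.1 (emb m)) c)) ^ k) := if_pos hv
          rw [h1]
          apply Nonvan_prod
          intro c hc
          by_cases h : ∃ s, D.pos s = c
          · obtain ⟨s, rfl⟩ := h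
            exact ih (v.2 + sh v.1 (emb m), s)
              (D.decrease m r v hv s (Finsupp.mem_support_iff.1 hc))
          · exact hoff _ c fun s hs => h ⟨s, hs⟩
        · have h1 : u v = 1 := if_neg hv
          rw [h1]
          exact ⟨one_ne_zero, one_mem _⟩
      have hπ : Function.Injective π := by
        rintro ⟨g, a⟩ ⟨g', a'⟩ h
        have h1 : g = g' := congrArg Prod.fst h
        subst h1
        have h2 : a + sh g (emb m) = a' + sh g (emb m) := congrArg Prod.snd h
        rw [add_right_cancel h2]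
      have hval : F m (D.pos r) = aeval (fun v => u v * Y (π v)) (D.R r) := by
        rw [hF.on]
        apply aeval_congr'
        intro v hv
        have h1 : u v = (zer v.1 (emb m)).prod
          (fun c k => (τ v.1 (F (v.2 + sh v.1 (emb m)) c)) ^ k) := if_pos hv
        rw [h1, mul_comm]
        rfl
      rw [hval]
      constructor
      · intro h0
        apply D.R_ne r
        apply aeval_injective u π hπ (fun _ => rfl) (fun v => (hu v).1) (fun v => (hu v).2)
        rw [h0, map_zero]
      · apply aeval_mem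
        intro v hv
        have hneg := D.R_neg r v hv
        exact mul_mem (Klt_mono _ _ hneg.le (hu v).2) (Y_mem_Klt _ _ hneg)
  by_cases h : ∃ s, D.pos s = c
  · obtain ⟨s, rfl⟩ := h
    exact main (m, s)
  · exact hoff m c fun s hs => h ⟨s, hs⟩

theorem wact_injective (D : Data) (F : M → ℤ → K) (hF : Spec D F) (n : N) :
    Function.Injective (aeval (wact F n) : P → K) := by
  have h1 : wact F n = fun v => ((zer v.1 n).prod
      (fun c k => (τ v.1 (F (v.2 + sh v.1 n) c)) ^ k)) * Y (v.1, v.2 + sh v.1 n) := by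
    funext v
    rw [mul_comm]
    rfl
  rw [h1]
  have hu := fun v : V => Nonvan_prod F v.1 (v.2 + sh v.1 n) (zer v.1 n)
    (fun c _ => nonvan D F hF (v.2 + sh v.1 n) c)
  apply aeval_injective _ (fun v : V => ((v.1, v.2 + sh v.1 n) : V)) _ (fun _ => rfl)
    (fun v => (hu v).1) (fun v => (hu v).2)
  rintro ⟨g, a⟩ ⟨g', a'⟩ h
  have h1 : g = g' := congrArg Prod.fst h
  subst h1
  have h2 : a + sh g n = a' + sh g n := congrArg Prod.snd h
  rw [add_right_cancel h2]

end Pool.Agent.WBec814
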