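import Pool.Agent.W_bec814_h13.Enum
import Pool.Agent.W_bec814_h13.Measure

/-!
The function `F` is defined by well-founded recursion on `μ m r` (Dershowitz–Manna order,
`Multiset.wellFounded_isDershowitzMannaLT`): define `E : M → ℕ → K` by `WellFounded.fix`,
`E m r = aeval (fun v => Y (v.1, v.2 + sh v.1 (emb m)) * (zer v.1 (emb m)).prod (fun c k =>
  (τ v.1 (if h : ∃ s, pos s = c ∧ μ (v.2 + sh v.1 (emb m)) s < μ m r then E _ h.choose else 1)) ^ k))
  (R r)`, and `F m c = E m r` if `c = pos r`, `F m c = 1` if `c` is not a position.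
By `Data.decrease` the `if` is always in the first case when `c` is a position in the support of
`zer v.1 (emb m)` and `v ∈ vars (R r)`.
(`aeval` only depends on the values at the variables in `vars`: `MvPolynomial.eval₂Hom_congr'` or
`MvPolynomial.aeval_def` + `eval₂_congr`...)
-/

set_option autoImplicit false

namespace Pool.Agent.WBec814

open MvPolynomial

/-- the value of the recursion at `x = (m, r)`, given the previous values -/
noncomputable def Recur_step (D : Data) (x : M × ℕ)
    (ih : ∀ y : M × ℕ, Multiset.IsDershowitzMannaLT (D.μ y.1 y.2) (D.μ x.1 x.2) → K)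
    (m' : M) (c : ℤ) : K :=
  open Classical in
  if h : ∃ s, D.pos s = c ∧ Multiset.IsDershowitzMannaLT (D.μ m' s) (D.μ x.1 x.2) then
    ih (m', h.choose) h.choose_spec.2 else 1

theorem Recur_aeval_congr (w w' : V → K) (p : P) (h : ∀ v ∈ p.vars, w v = w' v) :
    aeval w p = aeval w' p := by
  rw [aeval_def, aeval_def]
  apply eval₂_congr
  intro i c hi hc
  exact h i ((mem_vars_iff_mem_support i).2 ⟨c, mem_support_iff.2 hc, hi⟩)

theorem exists_spec (D : Data) : ∃ F : M → ℤ → K, Spec D F := by
  classical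
  have wf : WellFounded (fun x y : M × ℕ =>
      Multiset.IsDershowitzMannaLT (D.μ x.1 x.2) (D.μ y.1 y.2)) :=
    InvImage.wf (fun x : M × ℕ => D.μ x.1 x.2) Multiset.wellFounded_isDershowitzMannaLT
  let step : ∀ x : M × ℕ,
      (∀ y : M × ℕ, Multiset.IsDershowitzMannaLT (D.μ y.1 y.2) (D.μ x.1 x.2) → K) → K :=
    fun x ih => aeval (wact (Recur_step D x ih) (emb x.1)) (D.R x.2)
  let E : M × ℕ → K := wf.fix step
  have hE : ∀ x, E x = step x (fun y _ => E y) := fun x => wf.fix_eq step x
  have hinj : Function.Injective D.pos := D.pos_strictMono.injective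
  let F : M → ℤ → K := fun m c => if h : ∃ r, D.pos r = c then E (m, h.choose) else 1
  have hFpos : ∀ m r, F m (D.pos r) = E (m, r) := by
    intro m r
    have h : ∃ r', D.pos r' = D.pos r := ⟨r, rfl⟩
    have h1 : h.choose = r := hinj h.choose_spec
    show (if h : ∃ r', D.pos r' = D.pos r then E (m, h.choose) else 1) = _
    rw [dif_pos h, h1]
  have hFoff : ∀ m c, (∀ r, D.pos r ≠ c) → F m c = 1 := by
    intro m c hc
    show (if h : ∃ r', D.pos r' = c then E (m, h.choose) else 1) = _
    rw [dif_neg]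
    rintro ⟨r, hr⟩
    exact hc r hr
  refine ⟨F, hFoff, ?_⟩
  intro m r
  rw [hFpos, hE]
  show aeval (wact (Recur_step D (m, r) fun y _ => E y) (emb m)) (D.R r) = _
  apply Recur_aeval_congr
  intro v hv
  unfold wact
  congr 1
  apply Finsupp.prod_congr
  intro c hc
  have hc0 : zer v.1 (emb m) c ≠ 0 := Finsupp.mem_support_iff.1 hc
  have key : Recur_step D (m, r) (fun y _ => E y) (v.2 + sh v.1 (emb m)) c =
      F (v.2 + sh v.1 (emb m)) c := by
    unfold Recur_step
    by_cases h : ∃ s, D.pos s = c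
    · obtain ⟨s, rfl⟩ := h
      have hdec := D.decrease m r v hv s hc0
      have h2 : ∃ s', D.pos s' = D.pos s ∧
          Multiset.IsDershowitzMannaLT (D.μ (v.2 + sh v.1 (emb m)) s') (D.μ (m, r).1 (m, r).2) :=
        ⟨s, rfl, hdec⟩
      rw [dif_pos h2, hFpos]
      show E (v.2 + sh v.1 (emb m), h2.choose) = E (v.2 + sh v.1 (emb m), s)
      rw [hinj h2.choose_spec.1]
    · rw [dif_neg, hFoff]
      · intro s hs
        exact h ⟨s, hs⟩
      · rintro ⟨s, hs, -⟩
        exact h ⟨s, hs⟩
  rw [key]

end Pool.Agent.WBec814
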