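import Mathlib

/-! Restricted permutational wreath products `F ≀_X Q`. -/

set_option autoImplicit false

namespace Pool.Agent.WBec814

theorem finFun_mul {X F : Type} [Group F] {a b : X → F}
    (ha : a ∈ {f : X → F | (Function.mulSupport f).Finite})
    (hb : b ∈ {f : X → F | (Function.mulSupport f).Finite}) :
    a * b ∈ {f : X → F | (Function.mulSupport f).Finite} :=
  ((Set.Finite.union ha hb).subset (Function.mulSupport_mul a b))

theorem finFun_one {X F : Type} [Group F] :
    (1 : X → F) ∈ {f : X → F | (Function.mulSupport f).Finite} := by simp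

theorem finFun_inv {X F : Type} [Group F] {a : X → F}
    (ha : a ∈ {f : X → F | (Function.mulSupport f).Finite}) :
    a⁻¹ ∈ {f : X → F | (Function.mulSupport f).Finite} := by
  refine Set.Finite.subset ha fun x hx h => hx ?_
  show (a x)⁻¹ = 1
  rw [h, inv_one]

/-- functions `X → F` of finite support -/
def finFun (X F : Type) [Group F] : Subgroup (X → F) where
  carrier := {f | (Function.mulSupport f).Finite}
  mul_mem' := finFun_mul
  one_mem' := finFun_one
  inv_mem' := finFun_inv

theorem permFun_mem {Q X F : Type} [Group Q] [MulAction Q X] [Group F] (q : Q) (f : finFun X F) :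
    (fun x => f.1 (q • x)) ∈ finFun X F := by
  have h : (Function.mulSupport f.1).Finite := f.2
  exact (h.preimage (MulAction.injective q).injOn)

theorem permFun_left {Q X F : Type} [Group Q] [MulAction Q X] [Group F] (q : Q) (f : finFun X F) :
    (⟨fun x => (⟨fun x => f.1 (q⁻¹ • x), permFun_mem q⁻¹ f⟩ : finFun X F).1 (q • x),
      permFun_mem q _⟩ : finFun X F) = f := by
  ext x; simp

theorem permFun_right {Q X F : Type} [Group Q] [MulAction Q X] [Group F] (q : Q) (f : finFun X F) :
    (⟨fun x => (⟨fun x => f.1 (q • x), permFun_mem q f⟩ : finFun X F).1 (q⁻¹ • x),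
      permFun_mem q⁻¹ _⟩ : finFun X F) = f := by
  ext x; simp

theorem permFun_mul {Q X F : Type} [Group Q] [MulAction Q X] [Group F] (q : Q)
    (f f' : finFun X F) :
    (⟨fun x => (f * f').1 (q⁻¹ • x), permFun_mem q⁻¹ (f * f')⟩ : finFun X F) =
      ⟨fun x => f.1 (q⁻¹ • x), permFun_mem q⁻¹ f⟩ *
        ⟨fun x => f'.1 (q⁻¹ • x), permFun_mem q⁻¹ f'⟩ := by
  ext x; simp

/-- `(q f) x = f (q⁻¹ x)` as an automorphism -/
def permEquiv {Q X F : Type} [Group Q] [MulAction Q X] [Group F] (q : Q) :
    MulAut (finFun X F) where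
  toFun := fun f => ⟨fun x => f.1 (q⁻¹ • x), permFun_mem q⁻¹ f⟩
  invFun := fun f => ⟨fun x => f.1 (q • x), permFun_mem q f⟩
  left_inv := permFun_left q
  right_inv := permFun_right q
  map_mul' := permFun_mul q

theorem permEquiv_one (Q X F : Type) [Group Q] [MulAction Q X] [Group F] :
    permEquiv (1 : Q) = (1 : MulAut (finFun X F)) := by
  ext f x; simp [permEquiv]

theorem permEquiv_mul (Q X F : Type) [Group Q] [MulAction Q X] [Group F] (q q' : Q) :
    permEquiv (q * q') = (permEquiv q * permEquiv q' : MulAut (finFun X F)) := by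
  ext f x; simp [permEquiv, mul_smul]

/-- `(q f) x = f (q⁻¹ x)` -/
def permAct (Q X F : Type) [Group Q] [MulAction Q X] [Group F] : Q →* MulAut (finFun X F) where
  toFun := permEquiv
  map_one' := permEquiv_one Q X F
  map_mul' := permEquiv_mul Q X F

/-- the restricted permutational wreath product `F ≀_X Q` -/
abbrev Wr (Q X F : Type) [Group Q] [MulAction Q X] [Group F] : Type :=
  SemidirectProduct (finFun X F) Q (permAct Q X F)

open Classical in
theorem lamp_mem {X F : Type} [Group F] (x₀ : X) (f : F) :
    (fun x => if x = x₀ then f else 1) ∈ finFun X F := by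
  refine (Set.finite_singleton x₀).subset fun x hx => ?_
  by_contra h
  exact hx (if_neg h)

open Classical in
theorem lamp_one {X F : Type} [Group F] (x₀ : X) :
    (⟨fun x => if x = x₀ then (1 : F) else 1, lamp_mem x₀ 1⟩ : finFun X F) = 1 := by
  ext x; simp

open Classical in
theorem lamp_mul {X F : Type} [Group F] (x₀ : X) (f f' : F) :
    (⟨fun x => if x = x₀ then f * f' else 1, lamp_mem x₀ (f * f')⟩ : finFun X F) =
      ⟨fun x => if x = x₀ then f else 1, lamp_mem x₀ f⟩ *
        ⟨fun x => if x = x₀ then f' else 1, lamp_mem x₀ f'⟩ := by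
  ext x
  by_cases h : x = x₀ <;> simp [h]

open Classical in
/-- the copy of `F` at the point `x₀` -/
noncomputable def lamp (X F : Type) [Group F] (x₀ : X) : F →* finFun X F where
  toFun f := ⟨fun x => if x = x₀ then f else 1, lamp_mem x₀ f⟩
  map_one' := lamp_one x₀
  map_mul' := lamp_mul x₀

/-- the canonical map `Q * F → F ≀_{Q/H} Q` -/
noncomputable def canon (Q F : Type) [Group Q] [Group F] (H : Subgroup Q) :
    Monoid.Coprod Q F →* Wr Q (Q ⧸ H) F :=
  Monoid.Coprod.lift SemidirectProduct.inr
    (SemidirectProduct.inl.comp (lamp (Q ⧸ H) F ((1 : Q) : Q ⧸ H)))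

end Pool.Agent.WBec814
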